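import Pool.Agent.Work.MP_b5d674_co.L.Defs

/-! Binomial coefficients above the middle. -/

set_option autoImplicit false

namespace Pool.Agent.Work.MP_b5d674_co.L

open Finset
open scoped symmDiff

theorem bin_aux (r d m₀ : ℕ) (h : r < m₀ + d) :
    (2 * m₀ - r) * (univ.filter fun X : Finset (Fin r) => m₀ ≤ X.card).card ≤
      m₀ * r.choose m₀ := by
  induction d generalizing m₀ with
  | zero =>
    rw [add_zero] at h
    rw [filter_eq_empty_iff.2 fun X _ => not_le.2 (lt_of_le_of_lt (card_finset_fin_le X) h)]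
    simp
  | succ d ih =>
    have h1 := ih (m₀ + 1) (by omega)
    have h2 : (univ.filter fun X : Finset (Fin r) => m₀ ≤ X.card).card ≤
        r.choose m₀ + (univ.filter fun X : Finset (Fin r) => m₀ + 1 ≤ X.card).card := by
      have e : (powersetCard m₀ (univ : Finset (Fin r))).card = r.choose m₀ := by simp
      rw [← e]
      refine (card_le_card fun X hX => ?_).trans (card_union_le _ _)
      have := (mem_filter.1 hX).2
      simp only [mem_union, mem_powersetCard_univ, mem_filter, mem_univ, true_and]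
      omega
    rw [mul_comm (m₀ + 1), Nat.choose_succ_right_eq] at h1
    rcases le_total (2 * m₀) r with e | e
    · rw [Nat.sub_eq_zero_of_le e, zero_mul]
      exact Nat.zero_le _
    rcases lt_or_ge r m₀ with e' | e'
    · rw [filter_eq_empty_iff.2 fun X _ => not_le.2 (lt_of_le_of_lt (card_finset_fin_le X) e')]
      simp
    calc _ ≤ (2 * m₀ - r) * r.choose m₀ + (2 * (m₀ + 1) - r) *
          (univ.filter fun X : Finset (Fin r) => m₀ + 1 ≤ X.card).card := by
          refine (Nat.mul_le_mul_left _ h2).trans ?_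
          rw [mul_add]
          exact Nat.add_le_add_left (Nat.mul_le_mul_right _ (by omega)) _
      _ ≤ (2 * m₀ - r) * r.choose m₀ + r.choose m₀ * (r - m₀) := Nat.add_le_add_left h1 _
      _ = _ := by
          rw [mul_comm (r.choose m₀), ← add_mul]
          congr 1
          omega

/-- `∑_{j ≥ m₀} (2j - r) C(r,j) = m₀ C(r,m₀)`. -/
theorem bin_tail {r m D m₀ : ℕ} (h : m₀ + D = m + 1) :
    (2 * m₀ - r) * V r m D ≤ m₀ * r.choose m₀ := by
  have e : V r m D = (univ.filter fun X : Finset (Fin r) => m₀ ≤ X.card).card := by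
    unfold V
    exact congrArg _ (filter_congr fun X _ => by omega)
  rw [e]
  exact bin_aux r (r + 1) m₀ (by omega)

theorem bin_up (r m₀ j : ℕ) (h : m₀ + j ≤ r) :
    r.choose m₀ * (r - (m₀ + j) + 1) ^ j ≤ (m₀ + j) ^ j * r.choose (m₀ + j) := by
  induction j with
  | zero => simp
  | succ j ih =>
    have h1 := ih (by omega)
    rw [show r - (m₀ + (j + 1)) + 1 = r - (m₀ + j) by omega, ← add_assoc]
    calc _ = r.choose m₀ * (r - (m₀ + j)) ^ j * (r - (m₀ + j)) := by ring
      _ ≤ (m₀ + j) ^ j * r.choose (m₀ + j) * (r - (m₀ + j)) :=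
          Nat.mul_le_mul_right _
            ((Nat.mul_le_mul_left _ (Nat.pow_le_pow_left (Nat.le_succ _) j)).trans h1)
      _ = (m₀ + j) ^ j * (r.choose (m₀ + j + 1) * (m₀ + j + 1)) := by
          rw [Nat.choose_succ_right_eq, mul_assoc]
      _ ≤ (m₀ + j + 1) ^ j * (r.choose (m₀ + j + 1) * (m₀ + j + 1)) :=
          Nat.mul_le_mul_right _ (Nat.pow_le_pow_left (Nat.le_succ _) j)
      _ = _ := by ring

theorem bin_down (r m₀ j : ℕ) :
    r.choose (m₀ + j) * (m₀ + 1) ^ j ≤ (r - m₀) ^ j * r.choose m₀ := by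
  induction j with
  | zero => simp
  | succ j ih =>
    rw [← add_assoc]
    calc _ = r.choose (m₀ + j + 1) * (m₀ + 1) * (m₀ + 1) ^ j := by ring
      _ ≤ r.choose (m₀ + j + 1) * (m₀ + j + 1) * (m₀ + 1) ^ j :=
          Nat.mul_le_mul_right _ (Nat.mul_le_mul_left _ (by omega))
      _ = (r - (m₀ + j)) * (r.choose (m₀ + j) * (m₀ + 1) ^ j) := by
          rw [Nat.choose_succ_right_eq]
          ring
      _ ≤ (r - m₀) * ((r - m₀) ^ j * r.choose m₀) := Nat.mul_le_mul (by omega) ih
      _ = _ := by ring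

end Pool.Agent.Work.MP_b5d674_co.L
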