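import Pool.Agent.Work.MP_b5d674_co.L.Defs

/-! Test sets from a binary linear code: the short nonempty sets with vector sum zero. -/

set_option autoImplicit false

namespace Pool.Agent.Work.MP_b5d674_co.L

open Finset
open scoped symmDiff

/-- The number of subsets with at most `a` points. -/
def Ball (r a : ℕ) : ℕ := (univ.filter fun X : Finset (Fin r) => X.card ≤ a).card

theorem ball_le (r a y : ℕ) (hy : 1 ≤ y) : Ball r a * y ^ r ≤ y ^ a * (y + 1) ^ r := by
  have h := Fintype.sum_pow_mul_eq_add_pow (Fin r) (1 : ℕ) y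
  simp only [one_pow, one_mul, Fintype.card_fin] at h
  rw [add_comm y 1, ← h, mul_sum, Ball, ← smul_eq_mul, ← sum_const]
  refine le_trans (sum_le_sum ?_) (sum_le_sum_of_subset (filter_subset _ _))
  intro X hX
  rw [← pow_add]
  have := (mem_filter.1 hX).2
  exact Nat.pow_le_pow_right hy (by omega)

section Code

variable {r : ℕ} {G : Type} [AddCommGroup G] [Fintype G] [DecidableEq G]

theorem code_share (R : Finset (Fin r)) (hR : R.Nonempty) :
    Fintype.card G * (univ.filter fun v : Fin r → G => ∑ i ∈ R, v i = 0).card ≤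
      Fintype.card (Fin r → G) := by
  obtain ⟨j, hj⟩ := hR
  have hs : ∀ (c : G) (v : Fin r → G), ∑ i ∈ R, (v + Pi.single j c : Fin r → G) i =
      ∑ i ∈ R, v i + c := by
    intro c v
    simp only [Pi.add_apply, sum_add_distrib]
    congr 1
    rw [sum_eq_single j]
    · simp
    · intro b _ hb
      simp [hb]
    · intro h
      exact absurd hj h
  rw [← card_univ, ← card_product, ← card_univ]
  refine card_le_card_of_injOn (fun z => z.2 + Pi.single j z.1) (fun _ _ => mem_univ _) ?_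
  intro z hz z' hz' h
  have h1 := (mem_filter.1 (mem_product.1 (mem_coe.1 hz)).2).2
  have h2 := (mem_filter.1 (mem_product.1 (mem_coe.1 hz')).2).2
  have h3 := hs z.1 z.2
  have h4 := hs z'.1 z'.2
  have h5 : z.2 + Pi.single j z.1 = z'.2 + Pi.single j z'.1 := h
  rw [h5, h4, h1, h2, zero_add, zero_add] at h3
  rw [h3] at h5
  exact Prod.ext h3.symm (add_right_cancel h5)

omit [Fintype G] [DecidableEq G] in
theorem code_sum (h2 : ∀ x : G, x + x = 0) (v : Fin r → G) (X Y : Finset (Fin r))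
    (h : ∑ i ∈ X, v i = ∑ i ∈ Y, v i) : ∑ i ∈ X ∆ Y, v i = 0 := by
  have e : ∀ A B : Finset (Fin r), ∑ i ∈ A ∩ B, v i + ∑ i ∈ A \ B, v i = ∑ i ∈ A, v i := by
    intro A B
    rw [add_comm, ← sum_union (disjoint_sdiff_inter A B), sdiff_union_inter]
  have a := e X Y
  have b := e Y X
  rw [inter_comm, ← h, ← a] at b
  have c := add_left_cancel b
  rw [symmDiff_def, sup_eq_union, sum_union disjoint_sdiff_sdiff, c, h2]

theorem code_three (W X Y Z : Finset (Fin r)) (hX : X ⊆ W) (hY : Y ⊆ W) (hZ : Z ⊆ W) :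
    (X ∆ Y).card + (X ∆ Z).card + (Y ∆ Z).card ≤ 2 * W.card := by
  have e : ∀ A B : Finset (Fin r), A ⊆ W → B ⊆ W →
      (A ∆ B).card = ∑ i ∈ W, if i ∈ A ∆ B then 1 else 0 := by
    intro A B hA hB
    have : A ∆ B ⊆ W := fun i hi => (mem_symmDiff.1 hi).elim (fun h => hA h.1) fun h => hB h.1
    rw [sum_boole, filter_mem_eq_inter, inter_eq_right.2 this, Nat.cast_id]
  rw [e X Y hX hY, e X Z hX hZ, e Y Z hY hZ, ← sum_add_distrib, ← sum_add_distrib, mul_comm,
    ← smul_eq_mul, ← sum_const]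
  refine sum_le_sum fun i _ => ?_
  by_cases h1 : i ∈ X <;> by_cases h2 : i ∈ Y <;> by_cases h3 : i ∈ Z <;>
    simp [mem_symmDiff, h1, h2, h3]

theorem code_short (h2 : ∀ x : G, x + x = 0) (v : Fin r → G) (W : Finset (Fin r))
    (hW : Fintype.card G * 2 < 2 ^ W.card) :
    ∃ R ⊆ W, R.Nonempty ∧ 3 * R.card ≤ 2 * W.card ∧ ∑ i ∈ R, v i = 0 := by
  obtain ⟨c, -, hc⟩ := exists_lt_card_fiber_of_mul_lt_card_of_maps_to (s := W.powerset)
    (t := (univ : Finset G)) (f := fun X => ∑ i ∈ X, v i) (n := 2) (fun _ _ => mem_univ _)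
    (by rw [card_univ, card_powerset]; exact hW)
  obtain ⟨X, Y, Z, hX, hY, hZ, n1, n2, n3⟩ := two_lt_card_iff.1 hc
  obtain ⟨hX, sX⟩ := mem_filter.1 hX
  obtain ⟨hY, sY⟩ := mem_filter.1 hY
  obtain ⟨hZ, sZ⟩ := mem_filter.1 hZ
  rw [mem_powerset] at hX hY hZ
  have h3 := code_three W X Y Z hX hY hZ
  have e : ∀ A B : Finset (Fin r), A ⊆ W → B ⊆ W → A ≠ B → ∑ i ∈ A, v i = c → ∑ i ∈ B, v i = c →
      3 * (A ∆ B).card ≤ 2 * W.card →
      ∃ R ⊆ W, R.Nonempty ∧ 3 * R.card ≤ 2 * W.card ∧ ∑ i ∈ R, v i = 0 := by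
    intro A B hA hB hne sA sB hl
    refine ⟨A ∆ B, fun i hi => (mem_symmDiff.1 hi).elim (fun h => hA h.1) fun h => hB h.1, ?_, hl,
      code_sum h2 v A B (sA.trans sB.symm)⟩
    exact symmDiff_nonempty.2 hne
  by_cases c1 : 3 * (X ∆ Y).card ≤ 2 * W.card
  · exact e X Y hX hY n1 sX sY c1
  by_cases c2 : 3 * (X ∆ Z).card ≤ 2 * W.card
  · exact e X Z hX hZ n2 sX sZ c2
  exact e Y Z hY hZ n3 sY sZ (by omega)

/-- One averaging over all vector systems. -/
theorem code_avg (BB : Finset (Finset (Fin r))) (hB : ∀ R ∈ BB, R.Nonempty)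
    (wt : Finset (Fin r) → ℕ) :
    ∃ v : Fin r → G, Fintype.card G * ∑ R ∈ BB.filter (fun R => ∑ i ∈ R, v i = 0), wt R ≤
      ∑ R ∈ BB, wt R := by
  have h : ∑ v : Fin r → G, Fintype.card G * ∑ R ∈ BB.filter (fun R => ∑ i ∈ R, v i = 0), wt R ≤
      ∑ _v : Fin r → G, ∑ R ∈ BB, wt R := by
    rw [← mul_sum]
    simp only [sum_filter]
    rw [sum_comm, mul_sum, sum_comm (s := univ)]
    refine sum_le_sum fun R hR => ?_
    rw [← sum_filter, sum_const, sum_const, smul_eq_mul, smul_eq_mul, ← mul_assoc, card_univ]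
    exact Nat.mul_le_mul_right _ (code_share R (hB R hR))
  obtain ⟨v, -, hv⟩ := exists_le_of_sum_le univ_nonempty h
  exact ⟨v, hv⟩

end Code

theorem code_layer (r m : ℕ) :
    (univ.filter fun S : Finset (Fin r) => S.card = m).card = r.choose m := by
  have h1 := card_powersetCard m (univ : Finset (Fin r))
  rw [card_univ, Fintype.card_fin] at h1
  rw [← h1]
  congr 1
  ext J
  simp

theorem code_pairs (r m : ℕ) (BB : Finset (Finset (Fin r))) :
    ∑ R ∈ BB, (univ.filter fun S : Finset (Fin r) => S.card = m ∧ Disjoint S R).card ≤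
      r.choose m * 2 ^ (r - m) := by
  have h : ∀ R : Finset (Fin r),
      (univ.filter fun S : Finset (Fin r) => S.card = m ∧ Disjoint S R).card =
      ∑ S ∈ univ.filter (fun S : Finset (Fin r) => S.card = m), if Disjoint S R then 1 else 0 := by
    intro R
    rw [sum_boole, filter_filter, Nat.cast_id]
  simp only [h]
  rw [sum_comm, ← code_layer, ← smul_eq_mul, ← sum_const]
  refine sum_le_sum fun S hS => ?_
  have hc : (Sᶜ).card = r - m := by
    rw [card_compl, Fintype.card_fin, (mem_filter.1 hS).2]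
  rw [sum_boole, Nat.cast_id, ← hc, ← card_powerset]
  refine card_le_card fun R hR => mem_powerset.2 ?_
  exact subset_compl_iff_disjoint_left.2 (mem_filter.1 hR).2

theorem exists_code {r m a : ℕ} (hm : m ≤ r) (ha : 2 * (r - m + 5) ≤ 3 * a + 2) :
    ∃ RR : Finset (Finset (Fin r)),
      (∀ β : Finset (Fin r), β.card + 6 ≤ m + 1 → ∃ R ∈ RR, Disjoint β R) ∧
      4 * (univ.filter fun S : Finset (Fin r) => S.card = m ∧ ∃ R ∈ RR, Disjoint S R).card ≤
        r.choose m ∧
      4 * (RR.card * 2 ^ (r - m)) ≤ Ball r a := by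
  have hG : Fintype.card (Fin (r - m + 3) → ZMod 2) = 8 * 2 ^ (r - m) := by
    rw [Fintype.card_fun, ZMod.card, Fintype.card_fin, pow_add]
    ring
  have h2 : ∀ x : Fin (r - m + 3) → ZMod 2, x + x = 0 := fun x =>
    funext fun i => CharTwo.add_self_eq_zero (x i)
  set BB := univ.filter fun R : Finset (Fin r) => R.Nonempty ∧ R.card ≤ a with hBB
  set c : Finset (Fin r) → ℕ := fun R =>
    (univ.filter fun S : Finset (Fin r) => S.card = m ∧ Disjoint S R).card with hc
  obtain ⟨v, hv⟩ := code_avg (G := Fin (r - m + 3) → ZMod 2) BB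
    (fun R hR => (mem_filter.1 hR).2.1) fun R => Ball r a * c R + r.choose m * 2 ^ (r - m)
  set RR := BB.filter fun R => ∑ i ∈ R, v i = 0 with hRR
  have hA : 0 < Ball r a := card_pos.2 ⟨∅, by simp⟩
  have hC : 0 < r.choose m := Nat.choose_pos hm
  have hP : 0 < 2 ^ (r - m) := Nat.two_pow_pos _
  have hb : BB.card ≤ Ball r a :=
    card_le_card fun R hR => mem_filter.2 ⟨mem_univ _, (mem_filter.1 hR).2.2⟩
  have hp : ∑ R ∈ BB, c R ≤ r.choose m * 2 ^ (r - m) := code_pairs r m BB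
  rw [hG, sum_add_distrib, sum_add_distrib, sum_const, sum_const, smul_eq_mul, smul_eq_mul,
    ← mul_sum, ← mul_sum] at hv
  have h3 : 2 ^ (r - m) * (8 * (Ball r a * ∑ R ∈ RR, c R +
      RR.card * (r.choose m * 2 ^ (r - m)))) ≤ 2 ^ (r - m) * (2 * (Ball r a * r.choose m)) := by
    have e1 := Nat.mul_le_mul_left (Ball r a) hp
    have e2 := Nat.mul_le_mul_right (r.choose m * 2 ^ (r - m)) hb
    calc _ = 8 * 2 ^ (r - m) * (Ball r a * ∑ R ∈ RR, c R +
          RR.card * (r.choose m * 2 ^ (r - m))) := by ring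
      _ ≤ _ := hv
      _ ≤ Ball r a * (r.choose m * 2 ^ (r - m)) + Ball r a * (r.choose m * 2 ^ (r - m)) :=
          add_le_add e1 e2
      _ = _ := by ring
  have h4 := Nat.le_of_mul_le_mul_left h3 hP
  refine ⟨RR, ?_, ?_, ?_⟩
  · intro β hβ
    have hcβ : r - m + 5 ≤ (βᶜ).card := by
      rw [card_compl, Fintype.card_fin]
      omega
    obtain ⟨W, hW, cW⟩ := exists_subset_card_eq hcβ
    obtain ⟨R, hR, ne, hl, hs⟩ := code_short h2 v W (by
      rw [hG, cW, pow_add]
      omega)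
    refine ⟨R, mem_filter.2 ⟨mem_filter.2 ⟨mem_univ _, ne, by omega⟩, hs⟩, ?_⟩
    exact subset_compl_iff_disjoint_left.1 (hR.trans hW)
  · have e : (univ.filter fun S : Finset (Fin r) => S.card = m ∧ ∃ R ∈ RR, Disjoint S R).card ≤
        ∑ R ∈ RR, c R := by
      refine le_trans (card_le_card ?_) card_biUnion_le
      intro S hS
      obtain ⟨-, h1, R, hR, hd⟩ := mem_filter.1 hS
      exact mem_biUnion.2 ⟨R, hR, mem_filter.2 ⟨mem_univ _, h1, hd⟩⟩
    have e2 : Ball r a * (4 * ∑ R ∈ RR, c R) ≤ Ball r a * r.choose m := by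
      rw [mul_left_comm]
      omega
    have e3 := Nat.le_of_mul_le_mul_left e2 hA
    omega
  · have e2 : r.choose m * (4 * (RR.card * 2 ^ (r - m))) ≤ r.choose m * Ball r a := by
      have e : r.choose m * (4 * (RR.card * 2 ^ (r - m))) =
          4 * (RR.card * (r.choose m * 2 ^ (r - m))) := by ring
      rw [e, mul_comm (r.choose m) (Ball r a)]
      omega
    exact Nat.le_of_mul_le_mul_left e2 hC

/-- Few `N` agree on `S` with some test set up to fewer than `u` places. -/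
theorem cnt_g {r m : ℕ} (RR : Finset (Finset (Fin r))) (u : ℕ) (S : Finset (Fin r))
    (hS : S.card = m) :
    (univ.filter fun N : Finset (Fin r) => ¬ ∀ R ∈ RR, u ≤ (S ∩ (R ∆ N)).card).card ≤
      RR.card * (2 ^ (r - m) * Ball r u) := by
  have h : ∀ R : Finset (Fin r),
      (univ.filter fun N : Finset (Fin r) => (S ∩ (R ∆ N)).card ≤ u).card ≤
        2 ^ (r - m) * Ball r u := by
    intro R
    have hc : (Sᶜ).card = r - m := by rw [card_compl, Fintype.card_fin, hS]
    rw [← hc, ← card_powerset, Ball, ← card_product]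
    refine card_le_card_of_injOn (fun N => ((R ∆ N) \ S, S ∩ (R ∆ N))) ?_ ?_
    · intro N hN
      refine mem_coe.2 (mem_product.2 ⟨mem_powerset.2 fun i hi => ?_, ?_⟩)
      · exact mem_compl.2 (mem_sdiff.1 hi).2
      · exact mem_filter.2 ⟨mem_univ _, (mem_filter.1 (mem_coe.1 hN)).2⟩
    · intro N _ N' _ e
      have e1 : (R ∆ N) \ S = (R ∆ N') \ S := congrArg Prod.fst e
      have e2 : S ∩ (R ∆ N) = S ∩ (R ∆ N') := congrArg Prod.snd e
      have e3 : R ∆ N = R ∆ N' := by
        rw [← sdiff_union_inter (R ∆ N) S, ← sdiff_union_inter (R ∆ N') S, e1, inter_comm _ S, e2,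
          inter_comm S]
      exact symmDiff_right_injective R e3
  refine le_trans (card_le_card (t := RR.biUnion fun R =>
    univ.filter fun N : Finset (Fin r) => (S ∩ (R ∆ N)).card ≤ u) ?_) ?_
  · intro N hN
    have h1 := (mem_filter.1 hN).2
    push Not at h1
    obtain ⟨R, hR, hl⟩ := h1
    exact mem_biUnion.2 ⟨R, hR, mem_filter.2 ⟨mem_univ _, hl.le⟩⟩
  · refine le_trans card_biUnion_le ?_
    rw [← smul_eq_mul, ← sum_const]
    exact sum_le_sum fun R _ => h R

end Pool.Agent.Work.MP_b5d674_co.L
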