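import Pool.Agent.Work.MP_b5d674_co.L.Defs

/-! Exact counts through `y ↦ S ∆ (x ∆ y)`, using `|S ∆ N| + 2 |S ∩ N| = |S| + |N|`. -/

set_option autoImplicit false

namespace Pool.Agent.Work.MP_b5d674_co.L

open Finset
open scoped symmDiff

variable {r : ℕ}

theorem count_id (S N : Finset (Fin r)) :
    (S ∆ N).card + 2 * (S ∩ N).card = S.card + N.card := by
  have h1 := card_sdiff_add_card_inter S N
  have h2 := card_sdiff_add_card_inter N S
  rw [inter_comm] at h2
  rw [Finset.symmDiff_def, card_union_of_disjoint disjoint_sdiff_sdiff]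
  omega

theorem count_compl (N : Finset (Fin r)) : N.card + Nᶜ.card = r := by
  rw [card_add_card_compl, Fintype.card_fin]

theorem count_map {m D : ℕ} (p : Finset (Fin r) → Prop) [DecidablePred p]
    (f : Finset (Fin r) → Finset (Fin r)) (hf : Function.Injective f)
    (h : ∀ y, p y → m < (f y).card + D) : (univ.filter p).card ≤ V r m D :=
  card_le_card_of_injOn f (fun y hy => mem_coe.2 (mem_filter.2
    ⟨mem_univ _, h y (mem_filter.1 (mem_coe.1 hy)).2⟩)) hf.injOn

theorem cnt_a {m D : ℕ} (S x : Finset (Fin r)) (hS : S.card = m) :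
    (univ.filter fun y : Finset (Fin r) => ¬ Marg D S (x ∆ y)).card ≤ V r m D := by
  refine count_map _ (fun y => S ∆ (x ∆ y))
    ((symmDiff_right_injective S).comp (symmDiff_right_injective x)) fun y hy => ?_
  have := count_id S (x ∆ y)
  unfold Marg at hy
  show m < (S ∆ (x ∆ y)).card + D
  omega

theorem cnt_b {m D : ℕ} (hD : 1 ≤ D) (β x : Finset (Fin r)) (hβ : β.card + m ≤ r) :
    (univ.filter fun y : Finset (Fin r) => Marg D β (x ∆ y)).card ≤ V r m D := by
  refine count_map _ (fun y => (β ∆ (x ∆ y))ᶜ) (compl_injective.comp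
    ((symmDiff_right_injective β).comp (symmDiff_right_injective x))) fun y hy => ?_
  have h1 := count_id β (x ∆ y)
  have h2 := count_compl (β ∆ (x ∆ y))
  unfold Marg at hy
  show m < (β ∆ (x ∆ y))ᶜ.card + D
  omega

theorem cnt_c {m D θ : ℕ} (h : 2 * θ + m ≤ r) :
    (univ.filter fun N : Finset (Fin r) => N.card < 2 * θ).card ≤ V r m D := by
  refine count_map _ (fun N => Nᶜ) compl_injective fun N hN => ?_
  have h2 := count_compl N
  show m < Nᶜ.card + D
  omega

/-- The total cost of the pairs. -/
theorem cnt_w {m D θ : ℕ} (h : 2 * θ + m ≤ r) :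
    ∑ N : Finset (Fin r), (univ.filter fun S : Finset (Fin r) =>
      S.card = m ∧ ¬ (Marg D S N ∧ 2 * θ ≤ N.card)).card ≤ 2 * V r m D * r.choose m := by
  simp only [card_filter]
  rw [sum_comm]
  calc _ ≤ ∑ S : Finset (Fin r), if S.card = m then 2 * V r m D else 0 := by
        refine sum_le_sum fun S _ => ?_
        split_ifs with hS
        · have h1 := cnt_a (D := D) S ∅ hS
          have h2 := cnt_c (D := D) h
          simp only [← bot_eq_empty, bot_symmDiff] at h1
          rw [← card_filter]
          refine le_trans (card_le_card fun N hN => ?_) ((card_union_le _ _).trans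
            ((add_le_add h1 h2).trans_eq (two_mul _).symm))
          have h3 := (mem_filter.1 hN).2.2
          simp only [mem_union, mem_filter, mem_univ, true_and]
          rw [not_and_or, not_le] at h3
          exact h3
        · simp [hS]
    _ = _ := by
        rw [← sum_filter, sum_const, smul_eq_mul, mul_comm]
        congr 1
        have := card_powersetCard m (univ : Finset (Fin r))
        rw [powersetCard_eq_filter, powerset_univ, card_univ, Fintype.card_fin] at this
        exact this

end Pool.Agent.Work.MP_b5d674_co.L
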