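import Pool.Agent.Work.MP_b5d674_co.L.Defs

/-! Weighted greedy covering. -/

set_option autoImplicit false

namespace Pool.Agent.Work.MP_b5d674_co.L

open Finset
open scoped symmDiff

theorem cover_harm (x y h : ℕ) (hx : y + h ≤ x) :
    (harmonic y : ℝ) + h / x ≤ harmonic (y + h) := by
  induction h with
  | zero => simp
  | succ h ih =>
    have h1 := ih (by omega)
    have h2 : ((x : ℝ))⁻¹ ≤ (((y + h + 1 : ℕ) : ℝ))⁻¹ :=
      inv_anti₀ (by positivity) (by exact_mod_cast hx)
    rw [← add_assoc, harmonic_succ]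
    push_cast at h2 ⊢
    rw [add_div, one_div]
    linarith

theorem cover_pick {Ω β : Type} [Fintype Ω] (BB : Finset β) (sat : β → Ω → Prop)
    [∀ b, DecidablePred (sat b)] (cost : Ω → ℕ) (P : ℕ) (hP : 0 < P)
    (h : ∀ b ∈ BB, P ≤ (univ.filter (sat b)).card) (hB : 0 < BB.card) :
    ∃ f, 0 < (BB.filter fun b => sat b f).card ∧
      cost f * (P * BB.card) ≤ (BB.filter fun b => sat b f).card * ∑ g, cost g := by
  have h1 : P * BB.card ≤ ∑ f, (BB.filter fun b => sat b f).card := by
    have h2 : ∑ f, (BB.filter fun b => sat b f).card = ∑ b ∈ BB, (univ.filter (sat b)).card := by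
      simp only [card_filter]
      exact sum_comm
    rw [h2, mul_comm, ← smul_eq_mul]
    exact card_nsmul_le_sum _ _ _ h
  by_contra hcon
  push Not at hcon
  have h3 : ∃ f, 0 < (BB.filter fun b => sat b f).card := by
    by_contra h4
    push Not at h4
    rw [sum_eq_zero fun f _ => Nat.le_zero.1 (h4 f)] at h1
    exact absurd (Nat.mul_pos hP hB) (by omega)
  obtain ⟨f0, hf0⟩ := h3
  have h5 : ∑ f, (BB.filter fun b => sat b f).card * ∑ g, cost g <
      ∑ f, cost f * (P * BB.card) := by
    refine sum_lt_sum (fun f _ => ?_) ⟨f0, mem_univ _, hcon f0 hf0⟩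
    rcases Nat.eq_zero_or_pos (BB.filter fun b => sat b f).card with h6 | h6
    · rw [h6, zero_mul]
      exact Nat.zero_le _
    · exact (hcon f h6).le
  rw [← sum_mul, ← sum_mul, mul_comm] at h5
  exact absurd (Nat.mul_le_mul_left (∑ g, cost g) h1) (by omega)

theorem cover_aux {Ω β : Type} [Fintype Ω] [DecidableEq Ω] (sat : β → Ω → Prop)
    [∀ b, DecidablePred (sat b)] (cost : Ω → ℕ) (P : ℕ) (hP : 0 < P) (n : ℕ) :
    ∀ BB : Finset β, BB.card = n → (∀ b ∈ BB, P ≤ (univ.filter (sat b)).card) →
    ∃ W : Finset Ω, (∀ b ∈ BB, ∃ f ∈ W, sat b f) ∧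
      (P : ℝ) * (∑ f ∈ W, cost f : ℕ) ≤ harmonic n * (∑ f, cost f : ℕ) := by
  induction n using Nat.strong_induction_on with
  | _ n ih =>
    intro BB hn h
    rcases Nat.eq_zero_or_pos n with h0 | h0
    · refine ⟨∅, fun b hb => ?_, by simp [h0]⟩
      rw [card_eq_zero.1 (hn.trans h0)] at hb
      exact absurd hb (notMem_empty b)
    · obtain ⟨f, hf0, hf⟩ := cover_pick BB sat cost P hP h (by omega)
      have hc := card_filter_add_card_filter_not (s := BB) fun b => sat b f
      obtain ⟨W, hW, hW'⟩ := ih (BB.filter fun b => ¬ sat b f).card (by omega) _ rfl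
        fun b hb => h b (mem_filter.1 hb).1
      refine ⟨insert f W, fun b hb => ?_, ?_⟩
      · by_cases hs : sat b f
        · exact ⟨f, mem_insert_self _ _, hs⟩
        · obtain ⟨g, hg, hg'⟩ := hW b (mem_filter.2 ⟨hb, hs⟩)
          exact ⟨g, mem_insert_of_mem hg, hg'⟩
      · have h1 : ∑ g ∈ insert f W, cost g ≤ cost f + ∑ g ∈ W, cost g := by
          by_cases hfW : f ∈ W
          · rw [insert_eq_of_mem hfW]
            omega
          · rw [sum_insert hfW]
        have h2 := cover_harm n (BB.filter fun b => ¬ sat b f).card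
          (BB.filter fun b => sat b f).card (by omega)
        rw [show (BB.filter fun b => ¬ sat b f).card + (BB.filter fun b => sat b f).card = n by
          omega] at h2
        rw [hn] at hf
        generalize (BB.filter fun b => sat b f).card = k at *
        generalize (∑ g, cost g) = C at *
        have hn' : (0 : ℝ) < n := by exact_mod_cast h0
        have h3 : (P : ℝ) * cost f ≤ k / n * C := by
          rw [div_mul_eq_mul_div, le_div_iff₀ hn']
          have : ((cost f * (P * n) : ℕ) : ℝ) ≤ (k * C : ℕ) := by exact_mod_cast hf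
          push_cast at this
          linarith
        have h4 : ((∑ g ∈ insert f W, cost g : ℕ) : ℝ) ≤ cost f + (∑ g ∈ W, cost g : ℕ) := by
          exact_mod_cast h1
        have h5 := mul_le_mul_of_nonneg_left h4 (Nat.cast_nonneg (α := ℝ) P)
        have h6 := mul_le_mul_of_nonneg_right h2 (Nat.cast_nonneg (α := ℝ) C)
        linarith

/-- Pick `f` with `cost f * (P * #BB) ≤ hit f * ∑ cost` and `hit f > 0`; induct on `#BB` with the
harmonic number as potential; `harmonic_le_one_add_log`. -/
theorem cover {Ω β : Type} [Fintype Ω] [DecidableEq Ω] (BB : Finset β) (sat : β → Ω → Prop)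
    [∀ b, DecidablePred (sat b)] (cost : Ω → ℕ) (P : ℕ) (hP : 0 < P)
    (h : ∀ b ∈ BB, P ≤ (univ.filter (sat b)).card) (L : ℕ) (hL : BB.card ≤ 2 ^ L) :
    ∃ W : Finset Ω, (∀ b ∈ BB, ∃ f ∈ W, sat b f) ∧
      P * ∑ f ∈ W, cost f ≤ (L + 1) * ∑ f, cost f := by
  obtain ⟨W, hW, hW'⟩ := cover_aux sat cost P hP _ BB rfl h
  refine ⟨W, hW, ?_⟩
  have h1 : (harmonic BB.card : ℝ) ≤ L + 1 := by
    have h2 := harmonic_le_one_add_log BB.card
    have h3 : Real.log BB.card ≤ L := by
      rcases Nat.eq_zero_or_pos BB.card with h0 | h0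
      · simp [h0]
      · have h4 : (BB.card : ℝ) ≤ 2 ^ L := by exact_mod_cast hL
        have h5 := Real.log_le_log (by exact_mod_cast h0) h4
        rw [Real.log_pow] at h5
        have h6 : Real.log 2 ≤ 1 := by linarith [Real.log_two_lt_d9]
        have h7 := mul_le_mul_of_nonneg_left h6 (Nat.cast_nonneg (α := ℝ) L)
        linarith
    linarith
  have h8 := hW'.trans (mul_le_mul_of_nonneg_right h1 (Nat.cast_nonneg _))
  exact_mod_cast h8

end Pool.Agent.Work.MP_b5d674_co.L
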