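import Mathlib

/-! Definitions for the bound `k₀(r) ≥ c 2^r / log r` (paper: team store `h74_b5d674_log.md`). -/

set_option autoImplicit false

namespace Pool.Agent.Work.MP_b5d674_co.L

open Finset
open scoped symmDiff

variable {r : ℕ}

/-- `S` holds more than half of `N`, with margin `D`. -/
def Marg (D : ℕ) (S N : Finset (Fin r)) : Prop := N.card + D ≤ 2 * (S ∩ N).card

instance (D : ℕ) (S N : Finset (Fin r)) : Decidable (Marg D S N) := by unfold Marg; infer_instance

/-- The positions where the sign of the pattern `x` is blocked. -/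
def blk (P M x : Finset (Fin r)) : Finset (Fin r) := (P ∩ x) ∪ (M \ x)

/-- `S` is a good support for the family `k`. -/
def Good {n : ℕ} (p : Fin n → Finset (Fin r)) (Q RR : Finset (Finset (Fin r))) (m D θ : ℕ)
    (k : Fin n) (S : Finset (Fin r)) : Prop :=
  S.card = m ∧ (∀ R ∈ RR, ¬ Disjoint S R) ∧ (∀ q ∈ Q, Marg D S (p k ∆ q)) ∧
    ∀ k', k' ≠ k → Marg D S (p k ∆ p k') ∧ 2 * θ ≤ (p k ∆ p k').card

open Classical in
/-- The good pairs. -/
noncomputable def goods {n : ℕ} (p : Fin n → Finset (Fin r)) (Q RR : Finset (Finset (Fin r)))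
    (m D θ : ℕ) : Finset (Fin n × Finset (Fin r)) :=
  univ.filter fun z => Good p Q RR m D θ z.1 z.2

/-- The number of subsets with more than `m - D` points. -/
def V (r m D : ℕ) : ℕ := (univ.filter fun X : Finset (Fin r) => m < X.card + D).card

end Pool.Agent.Work.MP_b5d674_co.L
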