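import Pool.Agent.Work.MP_b5d674_co.L.Cover
import Pool.Agent.Work.MP_b5d674_co.L.Count

/-! The dummy centres: `cover` on the cube, demands the pairs `(P, M)` (at most `2^(2r)`),
`P := 2^r - n V` by `cnt_b`, total cost at most `n C(r,m) V` by `cnt_a`. -/

set_option autoImplicit false

namespace Pool.Agent.Work.MP_b5d674_co.L

open Finset
open scoped symmDiff

theorem dummy_sat {r n m D : ℕ} (hD : 1 ≤ D) (p : Fin n → Finset (Fin r))
    (β : Fin n → Finset (Fin r)) (hβ : ∀ k, (β k).card + m ≤ r) :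
    2 ^ r - n * V r m D ≤
      (univ.filter fun q : Finset (Fin r) => ∀ k, ¬ Marg D (β k) (p k ∆ q)).card := by
  have h1 := card_filter_add_card_filter_not (s := (univ : Finset (Finset (Fin r))))
    (fun q : Finset (Fin r) => ∀ k, ¬ Marg D (β k) (p k ∆ q))
  rw [card_univ, Fintype.card_finset, Fintype.card_fin] at h1
  have h2 : (univ.filter fun q : Finset (Fin r) => ¬ ∀ k, ¬ Marg D (β k) (p k ∆ q)) ⊆
      univ.biUnion fun k : Fin n => univ.filter fun q => Marg D (β k) (p k ∆ q) := by
    intro q hq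
    have hq' := (mem_filter.1 hq).2
    push Not at hq'
    obtain ⟨k, hk⟩ := hq'
    exact mem_biUnion.2 ⟨k, mem_univ _, mem_filter.2 ⟨mem_univ _, hk⟩⟩
  have h3 := (card_le_card h2).trans (card_biUnion_le_card_mul _ _ (V r m D)
    fun k _ => cnt_b hD (β k) (p k) (hβ k))
  rw [card_univ, Fintype.card_fin] at h3
  omega

theorem dummy_cost {r n m D : ℕ} (p : Fin n → Finset (Fin r)) :
    ∑ q : Finset (Fin r), (univ.filter fun z : Fin n × Finset (Fin r) =>
      z.2.card = m ∧ ¬ Marg D z.2 (p z.1 ∆ q)).card ≤ V r m D * (n * r.choose m) := by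
  simp only [card_filter]
  rw [sum_comm]
  calc _ ≤ ∑ z : Fin n × Finset (Fin r), if z.2.card = m then V r m D else 0 := by
        refine sum_le_sum fun z _ => ?_
        split_ifs with hz
        · have h1 := cnt_a (D := D) z.2 (p z.1) hz
          rw [card_filter] at h1
          simpa [hz] using h1
        · simp [hz]
    _ = V r m D * (n * r.choose m) := by
        have h2 : (univ.filter fun S : Finset (Fin r) => S.card = m).card = r.choose m := by
          have h3 : (univ.filter fun S : Finset (Fin r) => S.card = m) =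
              powersetCard m (univ : Finset (Fin r)) := by
            ext S; simp
          rw [h3, card_powersetCard, card_univ, Fintype.card_fin]
        have h4 : ∑ S : Finset (Fin r), (if S.card = m then V r m D else 0) =
            r.choose m * V r m D := by
          rw [← sum_filter, sum_const, smul_eq_mul, h2]
        rw [Fintype.sum_prod_type]
        simp only [h4, sum_const, card_univ, Fintype.card_fin, smul_eq_mul]
        ring

theorem exists_dummy {r n m D : ℕ} (hD : 1 ≤ D) (p : Fin n → Finset (Fin r))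
    (h : 2 * (n * V r m D) ≤ 2 ^ r) :
    ∃ Q : Finset (Finset (Fin r)),
      (∀ P M : Finset (Fin r), (∀ k, (blk P M (p k)).card + m ≤ r) →
        ∃ q ∈ Q, ∀ k, ¬ Marg D (blk P M (p k)) (p k ∆ q)) ∧
      2 ^ r * (univ.filter fun z : Fin n × Finset (Fin r) =>
          z.2.card = m ∧ ∃ q ∈ Q, ¬ Marg D z.2 (p z.1 ∆ q)).card ≤
        2 * (2 * r + 1) * V r m D * (n * r.choose m) := by
  classical
  have hpos : 0 < 2 ^ r := by positivity
  obtain ⟨W, hW, hc⟩ := cover
    (univ.filter fun b : Finset (Fin r) × Finset (Fin r) =>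
      ∀ k, (blk b.1 b.2 (p k)).card + m ≤ r)
    (fun b q => ∀ k, ¬ Marg D (blk b.1 b.2 (p k)) (p k ∆ q))
    (fun q => (univ.filter fun z : Fin n × Finset (Fin r) =>
      z.2.card = m ∧ ¬ Marg D z.2 (p z.1 ∆ q)).card)
    (2 ^ r - n * V r m D) (by omega)
    (fun b hb => by
      convert dummy_sat hD p (fun k => blk b.1 b.2 (p k)) (mem_filter.1 hb).2)
    (2 * r) (by
      refine (card_filter_le _ _).trans ?_
      rw [card_univ, Fintype.card_prod, Fintype.card_finset, Fintype.card_fin, two_mul, pow_add])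
  refine ⟨W, fun P M hPM => hW (P, M) (mem_filter.2 ⟨mem_univ _, hPM⟩), ?_⟩
  have h1 : (univ.filter fun z : Fin n × Finset (Fin r) =>
      z.2.card = m ∧ ∃ q ∈ W, ¬ Marg D z.2 (p z.1 ∆ q)).card ≤
      ∑ q ∈ W, (univ.filter fun z : Fin n × Finset (Fin r) =>
        z.2.card = m ∧ ¬ Marg D z.2 (p z.1 ∆ q)).card := by
    refine le_trans (card_le_card ?_) card_biUnion_le
    intro z hz
    obtain ⟨-, hz1, q, hq, hz2⟩ := mem_filter.1 hz
    exact mem_biUnion.2 ⟨q, hq, mem_filter.2 ⟨mem_univ _, hz1, hz2⟩⟩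
  have h2 := dummy_cost (m := m) (D := D) p
  have h3 : 2 ^ r ≤ 2 * (2 ^ r - n * V r m D) := by omega
  calc _ ≤ (2 * (2 ^ r - n * V r m D)) * _ := Nat.mul_le_mul h3 h1
    _ = 2 * ((2 ^ r - n * V r m D) * _) := by rw [mul_assoc]
    _ ≤ 2 * ((2 * r + 1) * _) := Nat.mul_le_mul_left _ hc
    _ ≤ 2 * ((2 * r + 1) * (V r m D * (n * r.choose m))) :=
        Nat.mul_le_mul_left _ (Nat.mul_le_mul_left _ h2)
    _ = _ := by ring

end Pool.Agent.Work.MP_b5d674_co.L
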