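import Mathlib

/-! The partite Helly cover number `hp_r(k)` and the threshold `k₀(r)`. -/

set_option autoImplicit false

namespace Pool.Agent.Work.MP_b5d674_co.L

/-- The cover number of an `r`-partite `r`-graph with parts `V i`; an edge picks one vertex in
every part. -/
noncomputable def tau {r : ℕ} {V : Fin r → Type} (H : Set (∀ i, V i)) : ℕ∞ :=
  ⨅ (C : Set (Σ i, V i)) (_ : ∀ e ∈ H, ∃ i, Sigma.mk i (e i) ∈ C), C.encard

/-- Property `P_r(k)`: every subgraph with at most `k` edges has a transversal cover `t`. -/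
def Helly {r : ℕ} {V : Fin r → Type} (k : ℕ) (H : Set (∀ i, V i)) : Prop :=
  ∀ F ⊆ H, F.encard ≤ k → ∃ t : ∀ i, V i, ∀ e ∈ F, ∃ i, e i = t i

/-- `hp_r(k)`: the supremum in `ℕ∞` of the cover numbers of finite graphs with `P_r(k)`. -/
noncomputable def hp (r k : ℕ) : ℕ∞ :=
  ⨆ (V : Fin r → Type) (_ : ∀ i, Finite (V i)) (H : Set (∀ i, V i)) (_ : Helly k H), tau H

/-- The smallest `k ≥ 1` with `hp_r(k) = r`. -/
noncomputable def k0 (r : ℕ) : ℕ := sInf {k | 1 ≤ k ∧ hp r k = r}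

end Pool.Agent.Work.MP_b5d674_co.L
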