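import Pool.Agent.Work.MP_b5d674_co.L.Defs

/-! The covering game.  The scheme, the exclusion lemma and step 1 are copied from `Q/Key`
(helper89). -/

set_option autoImplicit false

namespace Pool.Agent.Work.MP_b5d674_co.L

open Finset
open scoped symmDiff

section
variable {ι : Type} [Fintype ι] [DecidableEq ι]

/-- The positions where two sign vectors differ. -/
def bdif (p p' : ι → Bool) : Finset ι := univ.filter fun i => p i ≠ p' i

/-- The positions where the sign `p i` is blocked. -/
def bblk (B : Bool → Finset ι) (p : ι → Bool) : Finset ι := univ.filter fun i => i ∈ B (p i)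

/-- The word built from the signs `g` against the blocked sets `B` differs from the signs `q` at
every position of `S`. -/
def key_Miss (B : Bool → Finset ι) (g q : ι → Bool) (S : Finset ι) : Prop :=
  ∀ i ∈ S, i ∈ B (q i) ∨ (g i ≠ q i ∧ i ∉ B (g i))

/-- The scheme and step 0. -/
theorem key_scheme {α κ : Type} [Fintype α] [DecidableEq α]
    (hα : Fintype.card ι < Fintype.card α) (h3 : 3 ≤ Fintype.card α) {m : ℕ}
    (p : κ → ι → Bool) (T : Finset (κ × Finset ι)) (hm : ∀ z ∈ T, z.2.card = m)
    (hA : ∀ B : Bool → Finset ι, (B true).card + (B false).card ≤ m → ∃ g : ι → Bool,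
      ∀ z ∈ T, ∀ z' ∈ T, key_Miss B g (p z.1) z.2 → key_Miss B g (p z'.1) z'.2 → z = z') :
    ∃ H : Finset (ι → α),
      (∀ F ⊆ H, F.card < T.card → ∃ t : ι → α, ∀ e ∈ F, ∃ i, e i = t i) ∧
      ∀ C : Finset (ι × α), (∀ e ∈ H, ∃ i, (i, e i) ∈ C) → Fintype.card ι < C.card := by
  classical
  obtain ⟨f⟩ : Nonempty (Option Bool ↪ α) :=
    Function.Embedding.nonempty_of_card_le (by simpa using h3)
  let w : κ × Finset ι → ι → α := fun z i => if i ∈ z.2 then f (some (p z.1 i)) else f none
  refine ⟨univ.filter fun e => (T.filter fun z => ∀ i, e i ≠ w z i).card ≤ 1, ?_, ?_⟩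
  · intro F hF hlt
    have h1 : (F.biUnion fun e => T.filter fun z => ∀ i, e i ≠ w z i).card < T.card := by
      refine lt_of_le_of_lt (card_biUnion_le.trans ?_) hlt
      refine (sum_le_card_nsmul _ _ 1 fun e he => (mem_filter.1 (hF he)).2).trans (by simp)
    obtain ⟨z, hz, hz'⟩ := exists_mem_notMem_of_card_lt_card h1
    refine ⟨w z, fun e he => ?_⟩
    by_contra hc
    exact hz' (mem_biUnion.2 ⟨e, he, mem_filter.2 ⟨hz, fun i hi => hc ⟨i, hi⟩⟩⟩)
  · intro C hC
    by_contra hlt
    have hle : C.card ≤ Fintype.card ι := not_lt.1 hlt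
    have hu : ∀ i : ι, ∃ a : α, (i, a) ∉ C := by
      intro i
      by_contra hc
      have h1 : (univ : Finset α).card ≤ C.card :=
        card_le_card_of_injOn (fun a => (i, a)) (fun a _ => by
          by_contra h
          exact hc ⟨a, h⟩) (fun a _ b _ h => (Prod.ext_iff.1 h).2)
      rw [card_univ] at h1
      omega
    choose u hu using hu
    let A : Option Bool → Finset ι := fun s => univ.filter fun i => (i, f s) ∈ C
    have hA' : ∀ s i, i ∈ A s ↔ (i, f s) ∈ C := fun s i => by simp [A]
    have hsum : (A none).card + ((A (some true)).card + (A (some false)).card) ≤ C.card := by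
      have h1 : ((univ : Finset (Option Bool)).sigma A).card ≤ C.card := by
        refine card_le_card_of_injOn (fun x => (x.2, f x.1)) (fun x hx => ?_) ?_
        · exact (hA' _ _).1 (mem_sigma.1 hx).2
        · rintro ⟨s, i⟩ - ⟨s', i'⟩ - h
          obtain ⟨h1, h2⟩ := Prod.ext_iff.1 h
          obtain rfl : s = s' := f.injective h2
          obtain rfl : i = i' := h1
          rfl
      rw [card_sigma, Fintype.sum_option, Fintype.sum_bool] at h1
      exact h1
    by_cases h0 : (A none).card + m < Fintype.card ι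
    · obtain ⟨i, hi⟩ := hC (fun i => if i ∈ A none then u i else f none) (by
        refine mem_filter.2 ⟨mem_univ _, ?_⟩
        rw [filter_eq_empty_iff.2, card_empty]
        · omega
        · intro z hz hmiss
          have h1 : (univ : Finset ι) ⊆ A none ∪ z.2 := by
            intro i _
            by_contra hc
            rw [mem_union, not_or] at hc
            exact hmiss i (by simp only [w, if_neg hc.1, if_neg hc.2])
          have h2 := (card_le_card h1).trans (card_union_le _ _)
          rw [card_univ, hm z hz] at h2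
          omega)
      by_cases h1 : i ∈ A none
      · rw [if_pos h1] at hi
        exact hu i hi
      · rw [if_neg h1] at hi
        exact h1 ((hA' _ _).2 hi)
    · obtain ⟨g, hg⟩ := hA (fun s => A (some s)) (by omega)
      obtain ⟨i, hi⟩ := hC (fun i => if i ∈ A (some (g i)) then
          (if i ∈ A (some (!g i)) then u i else f (some (!g i))) else f (some (g i))) (by
        refine mem_filter.2 ⟨mem_univ _, card_le_one.2 ?_⟩
        have key : ∀ z : κ × Finset ι, (∀ i, (if i ∈ A (some (g i)) then
            (if i ∈ A (some (!g i)) then u i else f (some (!g i))) else f (some (g i))) ≠ w z i) →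
            key_Miss (fun s => A (some s)) g (p z.1) z.2 := by
          intro z hz i hi
          have h1 := hz i
          simp only [w, if_pos hi] at h1
          by_cases h2 : i ∈ A (some (g i))
          · left
            rw [if_pos h2] at h1
            by_cases h4 : p z.1 i = g i
            · rw [h4]
              exact h2
            · have h5 : p z.1 i = !g i := Bool.eq_not_of_ne h4
              by_contra h6
              rw [h5] at h6 h1
              exact h1 (if_neg h6)
          · right
            rw [if_neg h2] at h1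
            exact ⟨fun h => h1 (by rw [h]), h2⟩
        intro z hz z' hz'
        rw [mem_filter] at hz hz'
        exact hg z hz.1 z' hz'.1 (key z hz.2) (key z' hz'.2))
      by_cases h1 : i ∈ A (some (g i))
      · rw [if_pos h1] at hi
        by_cases h2 : i ∈ A (some (!g i))
        · rw [if_pos h2] at hi
          exact hu i hi
        · rw [if_neg h2] at hi
          exact h2 ((hA' _ _).2 hi)
      · rw [if_neg h1] at hi
        exact h1 ((hA' _ _).2 hi)

/-- Exclusion. -/
theorem key_excl {D : ℕ} (B : Bool → Finset ι) {g g' q q' : ι → Bool} {S S' J : Finset ι}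
    (hJ : J.card ≤ 1) (hg : ∀ i ∉ J, g i = g' i) (h : key_Miss B g q S)
    (h' : key_Miss B g' q' S') (hS : (bdif q q').card + D ≤ 2 * (S ∩ bdif q q').card)
    (hS' : (bdif q' q).card + D ≤ 2 * (S' ∩ bdif q' q).card) :
    D ≤ (B true ∩ B false).card + 1 := by
  have e : bdif q' q = bdif q q' := by
    ext i
    simp only [bdif, mem_filter, mem_univ, true_and]
    exact ne_comm
  rw [e] at hS'
  have h1 : (S ∩ bdif q q') ∩ (S' ∩ bdif q q') ⊆ (B true ∩ B false) ∪ J := by
    intro i hi
    simp only [mem_inter, bdif, mem_filter, mem_univ, true_and] at hi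
    by_contra hc
    rw [mem_union, not_or, mem_inter] at hc
    have a := h i hi.1.1
    have b := h' i hi.2.1
    have c := hi.1.2
    have d := hc.1
    rw [← hg i hc.2] at b
    revert a b c d
    cases q i <;> cases q' i <;> cases g i <;> simp <;> tauto
  have h2 : (S ∩ bdif q q') ∪ (S' ∩ bdif q q') ⊆ bdif q q' :=
    union_subset inter_subset_right inter_subset_right
  have h3 := card_union_add_card_inter (S ∩ bdif q q') (S' ∩ bdif q q')
  have h4 := (card_le_card h1).trans (card_union_le _ _)
  have h5 := card_le_card h2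
  omega

theorem key_blk (B : Bool → Finset ι) (q : ι → Bool) : bblk B q ⊆ B true ∪ B false := by
  intro i hi
  simp only [bblk, mem_filter, mem_univ, true_and] at hi
  rw [mem_union]
  revert hi
  cases q i
  · exact Or.inr
  · exact Or.inl

/-- Step 1. -/
theorem key_small {κ : Type} {m D : ℕ} (p : κ → ι → Bool) (T : Finset (κ × Finset ι))
    (hm : ∀ z ∈ T, z.2.card = m)
    (hD : ∀ z ∈ T, ∀ k', k' ≠ z.1 →
      (bdif (p z.1) (p k')).card + D ≤ 2 * (z.2 ∩ bdif (p z.1) (p k')).card)
    (B : Bool → Finset ι) (hb : (B true).card + (B false).card ≤ m)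
    (hd : (B true ∩ B false).card + 2 ≤ D) :
    ∃ g : ι → Bool, ∀ z ∈ T, ∀ z' ∈ T,
      key_Miss B g (p z.1) z.2 → key_Miss B g (p z'.1) z'.2 → z = z' := by
  by_contra hc
  have h2 : ∀ g : ι → Bool, ∃ z ∈ T, ∃ z' ∈ T,
      key_Miss B g (p z.1) z.2 ∧ key_Miss B g (p z'.1) z'.2 ∧ z ≠ z' := by
    intro g
    by_contra h
    refine hc ⟨g, fun z hz z' hz' a b => ?_⟩
    by_contra e
    exact h ⟨z, hz, z', hz', a, b, e⟩
  have ex : ∀ (J : Finset ι) (g g' : ι → Bool), J.card ≤ 1 → (∀ i ∉ J, g i = g' i) →
      ∀ z ∈ T, ∀ z' ∈ T, key_Miss B g (p z.1) z.2 → key_Miss B g' (p z'.1) z'.2 →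
      z.1 = z'.1 := by
    intro J g g' hJ hg z hz z' hz' a b
    by_contra e
    have := key_excl B hJ hg a b (hD z hz _ (Ne.symm e)) (hD z' hz' _ e)
    omega
  have walk : ∀ (A : Finset ι) (g g' : ι → Bool), (∀ i ∉ A, g i = g' i) →
      ∀ z ∈ T, ∀ z' ∈ T, key_Miss B g (p z.1) z.2 → key_Miss B g' (p z'.1) z'.2 →
      z.1 = z'.1 := by
    intro A
    induction A using Finset.induction_on with
    | empty => exact fun g g' hg => ex ∅ g g' (by simp) hg
    | insert a A _ ih =>
      intro g g' hg z hz z' hz' x y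
      obtain ⟨z₁, hz₁, -, -, x₁, -, -⟩ := h2 (Function.update g' a (g a))
      refine (ih g _ (fun i hi => ?_) z hz z₁ hz₁ x x₁).trans
        (ex {a} _ g' (by simp) (fun i hi => ?_) z₁ hz₁ z' hz' x₁ y)
      · by_cases e : i = a
        · rw [e, Function.update_self]
        · rw [Function.update_of_ne e]
          exact hg i (by simp [e, hi])
      · exact Function.update_of_ne (by simpa using hi) _ _
  obtain ⟨z₀, hz₀, -, -, x₀, -, -⟩ := h2 fun _ => true
  obtain ⟨z, hz, z', hz', a, b, e⟩ := h2 (p z₀.1)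
  have one : ∀ z ∈ T, key_Miss B (p z₀.1) (p z.1) z.2 → z = (z₀.1, bblk B (p z₀.1)) := by
    intro z hz a
    have e1 : z.1 = z₀.1 := walk univ _ _ (by simp) z hz z₀ hz₀ a x₀
    refine Prod.ext e1 (eq_of_subset_of_card_le (fun i hi => ?_) ?_)
    · rw [e1] at a
      simp only [bblk, mem_filter, mem_univ, true_and]
      exact (a i hi).resolve_right fun h => h.1 rfl
    · rw [hm z hz]
      exact ((card_le_card (key_blk B _)).trans (card_union_le _ _)).trans hb
  exact e ((one z hz a).trans (one z' hz' b).symm)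

end

/-- The sign vector of a set. -/
def sgn {r : ℕ} (x : Finset (Fin r)) : Fin r → Bool := fun i => decide (i ∈ x)

theorem key_dif {r : ℕ} (x y : Finset (Fin r)) : bdif (sgn x) (sgn y) = x ∆ y := by
  ext i
  simp only [bdif, sgn, mem_filter, mem_univ, true_and, mem_symmDiff]
  by_cases h1 : i ∈ x <;> by_cases h2 : i ∈ y <;> simp [h1, h2]

/-- A missed position where `g` has the sign of `x` is blocked. -/
theorem key_F2 {r : ℕ} {B : Bool → Finset (Fin r)} {g x S : Finset (Fin r)}
    (h : key_Miss B (sgn g) (sgn x) S) {i : Fin r} (hi : i ∈ S) (hg : i ∈ g ↔ i ∈ x) :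
    i ∈ blk (B true) (B false) x := by
  have h1 := h i hi
  simp only [sgn] at h1
  simp only [blk, mem_union, mem_inter, mem_sdiff]
  by_cases hx : i ∈ x
  · have hg' := hg.2 hx
    simp [hx, hg'] at h1
    exact Or.inl ⟨h1, hx⟩
  · have hg' : i ∉ g := fun h => hx (hg.1 h)
    simp [hx, hg'] at h1
    exact Or.inr ⟨h1, hx⟩

theorem key_two {r : ℕ} (P M x y : Finset (Fin r)) :
    (blk P M x ∩ (x ∆ y)).card + (blk P M y).card ≤ P.card + M.card := by
  have h1 : blk P M x ∩ (x ∆ y) ⊆ (P \ y) ∪ (M ∩ y) := by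
    intro i
    simp only [blk, mem_union, mem_inter, mem_sdiff, mem_symmDiff]
    tauto
  have h2 := (card_le_card h1).trans (card_union_le _ _)
  have h3 : (blk P M y).card ≤ (P ∩ y).card + (M \ y).card := card_union_le _ _
  have h4 := card_sdiff_add_card_inter P y
  have h5 := card_sdiff_add_card_inter M y
  omega

theorem key {r n m D a θ : ℕ} (hr : 2 ≤ r) (p : Fin n → Finset (Fin r))
    (Q RR : Finset (Finset (Fin r))) (hθ : a + 2 * m ≤ θ + r) (ha : ∀ R ∈ RR, R.card ≤ a)
    (H1 : ∀ β : Finset (Fin r), β.card + D ≤ m + 1 → ∃ R ∈ RR, Disjoint β R)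
    (H2 : ∀ P M : Finset (Fin r), (∀ k, (blk P M (p k)).card + m ≤ r) →
      ∃ q ∈ Q, ∀ k, ¬ Marg D (blk P M (p k)) (p k ∆ q)) :
    ∃ H : Finset (Fin r → Fin (r + 1)),
      (∀ F ⊆ H, F.card < (goods p Q RR m D θ).card →
        ∃ t : Fin r → Fin (r + 1), ∀ e ∈ F, ∃ i, e i = t i) ∧
      ∀ C : Finset (Fin r × Fin (r + 1)), (∀ e ∈ H, ∃ i, (i, e i) ∈ C) → r < C.card := by
  classical
  have hG : ∀ z ∈ goods p Q RR m D θ, Good p Q RR m D θ z.1 z.2 := fun z hz =>
    (mem_filter.1 hz).2
  have := key_scheme (ι := Fin r) (α := Fin (r + 1)) (by simp) (by simp; omega) (m := m)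
    (fun k => sgn (p k)) (goods p Q RR m D θ) (fun z hz => (hG z hz).1) ?_
  · simpa using this
  intro B hb
  by_cases hd : (B true ∩ B false).card + 2 ≤ D
  · refine key_small (fun k => sgn (p k)) _ (fun z hz => (hG z hz).1) (fun z hz k' hk' => ?_) B hb hd
    rw [key_dif]
    exact ((hG z hz).2.2.2 k' hk').1
  suffices h : ∃ g : Finset (Fin r), ∀ z ∈ goods p Q RR m D θ,
      ¬ key_Miss B (sgn g) (sgn (p z.1)) z.2 by
    obtain ⟨g, hg⟩ := h
    exact ⟨sgn g, fun z hz _ _ h _ => (hg z hz h).elim⟩
  by_cases hA : ∀ k, (blk (B true) (B false) (p k)).card + m ≤ r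
  · obtain ⟨q, hq, hq'⟩ := H2 _ _ hA
    refine ⟨qᶜ, fun z hz hmiss => hq' z.1 ?_⟩
    have h1 := (hG z hz).2.2.1 q hq
    have h2 : z.2 ∩ (p z.1 ∆ q) ⊆ blk (B true) (B false) (p z.1) ∩ (p z.1 ∆ q) := by
      intro i hi
      obtain ⟨hi1, hi2⟩ := mem_inter.1 hi
      refine mem_inter.2 ⟨key_F2 hmiss hi1 ?_, hi2⟩
      rw [mem_symmDiff] at hi2
      rw [mem_compl]
      tauto
    have h3 := card_le_card h2
    unfold Marg at h1 ⊢
    omega
  · push Not at hA
    obtain ⟨k0, hk0⟩ := hA
    have hU := card_union_add_card_inter (B true) (B false)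
    have hβ : (blk (B true) (B false) (p k0)).card ≤ (B true ∪ B false).card :=
      card_le_card (union_subset_union inter_subset_left sdiff_subset)
    obtain ⟨R, hR, hR'⟩ := H1 (blk (B true) (B false) (p k0)) (by omega)
    refine ⟨(p k0 ∩ R) ∪ ((p k0)ᶜ \ R), fun z hz hmiss => ?_⟩
    by_cases hk : z.1 = k0
    · obtain ⟨i, hi1, hi2⟩ := not_disjoint_iff.1 ((hG z hz).2.1 R hR)
      refine disjoint_left.1 hR' (hk ▸ key_F2 hmiss hi1 ?_) hi2
      rw [hk]
      simp [hi2]
    · obtain ⟨h1, h2⟩ := (hG z hz).2.2.2 k0 (Ne.symm hk)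
      have h3 : z.2 ∩ (p z.1 ∆ p k0) ⊆
          R ∪ (blk (B true) (B false) (p z.1) ∩ (p z.1 ∆ p k0)) := by
        intro i hi
        obtain ⟨hi1, hi2⟩ := mem_inter.1 hi
        by_cases hiR : i ∈ R
        · exact mem_union_left _ hiR
        · refine mem_union_right _ (mem_inter.2 ⟨key_F2 hmiss hi1 ?_, hi2⟩)
          rw [mem_symmDiff] at hi2
          simp only [mem_union, mem_inter, mem_sdiff, mem_compl]
          tauto
      have h4 := (card_le_card h3).trans (card_union_le _ _)
      have h5 := key_two (B true) (B false) (p z.1) (p k0)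
      have h6 := ha R hR
      unfold Marg at h1
      omega

end Pool.Agent.Work.MP_b5d674_co.L
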