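import Pool.Agent.Work.MP_b5d674_co.L.Defs

/-! The real patterns, added one by one, each of least cost. -/

set_option autoImplicit false

namespace Pool.Agent.Work.MP_b5d674_co.L

open Finset
open scoped symmDiff

theorem real_pair {r n : ℕ} (w : Finset (Fin r) → ℕ) {k k' : Fin n} (h : k' ≠ k) :
    ∑ p : Fin n → Finset (Fin r), 2 ^ r * w (p k ∆ p k') =
      ∑ _p : Fin n → Finset (Fin r), ∑ N, w N := by
  have h1 : ∀ N : Finset (Fin r), ∑ p : Fin n → Finset (Fin r), w (p k ∆ p k') =
      ∑ p : Fin n → Finset (Fin r), w ((p k ∆ N) ∆ p k') := fun N => by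
    have hi : Function.Involutive fun p : Fin n → Finset (Fin r) =>
        Function.update p k (p k ∆ N) := fun p => by
      simp [symmDiff_symmDiff_cancel_right]
    rw [← hi.bijective.sum_comp fun p => w (p k ∆ p k')]
    simp [Function.update_of_ne h]
  calc _ = ∑ _N : Finset (Fin r), ∑ p : Fin n → Finset (Fin r), w (p k ∆ p k') := by
        rw [← Finset.mul_sum]; simp
    _ = ∑ N : Finset (Fin r), ∑ p : Fin n → Finset (Fin r), w ((p k ∆ N) ∆ p k') :=
        Finset.sum_congr rfl fun N _ => h1 N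
    _ = _ := by
        rw [Finset.sum_comm]
        exact Finset.sum_congr rfl fun p _ => ((symmDiff_left_involutive (p k')).bijective.comp
          (symmDiff_right_involutive (p k)).bijective).sum_comp w

theorem exists_real (r n : ℕ) (w : Finset (Fin r) → ℕ) (A : ℕ) (hA : ∑ N, w N ≤ A) :
    ∃ p : Fin n → Finset (Fin r),
      2 ^ r * ∑ k, ∑ k' ∈ univ.erase k, w (p k ∆ p k') ≤ n ^ 2 * A := by
  have key : ∑ p : Fin n → Finset (Fin r), 2 ^ r * ∑ k, ∑ k' ∈ univ.erase k, w (p k ∆ p k') ≤
      ∑ _p : Fin n → Finset (Fin r), n ^ 2 * A := by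
    calc _ = ∑ k, ∑ k' ∈ univ.erase k, ∑ p : Fin n → Finset (Fin r), 2 ^ r * w (p k ∆ p k') := by
          simp only [Finset.mul_sum]
          rw [Finset.sum_comm]
          exact Finset.sum_congr rfl fun k _ => Finset.sum_comm
      _ ≤ ∑ _k : Fin n, ∑ _k' : Fin n, ∑ _p : Fin n → Finset (Fin r), A := by
          refine Finset.sum_le_sum fun k _ => le_trans (Finset.sum_le_sum fun k' hk' => ?_)
            (Finset.sum_le_sum_of_subset (Finset.subset_univ _))
          rw [real_pair w (Finset.ne_of_mem_erase hk')]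
          exact Finset.sum_le_sum fun _ _ => hA
      _ = _ := by simp only [Finset.sum_const, card_univ, Fintype.card_fin, smul_eq_mul]; ring
  obtain ⟨p, -, hp⟩ := Finset.exists_le_of_sum_le Finset.univ_nonempty key
  exact ⟨p, hp⟩

end Pool.Agent.Work.MP_b5d674_co.L
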