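import Pool.Agent.Work.MP_b5d674_co.L.Cover

/-! The test sets: `cover` on `Fin a → Fin r`, `R` the image, cost the number of `m`-sets missing
it; total cost `C(r,m) (r-m)^a`, `P = (r-m+D-1)^a`, at most `2^r` demands. -/

set_option autoImplicit false

namespace Pool.Agent.Work.MP_b5d674_co.L

open Finset
open scoped symmDiff

theorem tests_count {r a : ℕ} (β : Finset (Fin r)) :
    (univ.filter fun f : Fin a → Fin r => ∀ i, f i ∉ β).card = (r - β.card) ^ a := by
  have e : (univ.filter fun f : Fin a → Fin r => ∀ i, f i ∉ β)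
      = Fintype.piFinset fun _ : Fin a => βᶜ := by
    ext f
    simp [Fintype.mem_piFinset]
  rw [e, Fintype.card_piFinset, prod_const, card_compl, card_univ, Fintype.card_fin,
    Fintype.card_fin]

theorem tests_disj {r a : ℕ} (β : Finset (Fin r)) (f : Fin a → Fin r) :
    Disjoint β (univ.image f) ↔ ∀ i, f i ∉ β := by
  rw [disjoint_right]
  constructor
  · intro h i
    exact h (mem_image_of_mem f (mem_univ i))
  · intro h x hx
    obtain ⟨i, -, rfl⟩ := mem_image.1 hx
    exact h i

theorem tests_sum {r m a : ℕ} :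
    ∑ f : Fin a → Fin r, (univ.filter fun S : Finset (Fin r) => S.card = m ∧ ∀ i, f i ∉ S).card
      = r.choose m * (r - m) ^ a := by
  have e1 : ∀ f : Fin a → Fin r,
      (univ.filter fun S : Finset (Fin r) => S.card = m ∧ ∀ i, f i ∉ S).card
        = ∑ S ∈ powersetCard m (univ : Finset (Fin r)), if ∀ i, f i ∉ S then 1 else 0 := by
    intro f
    rw [← card_filter]
    congr 1
    ext S
    simp [mem_powersetCard]
  simp only [e1]
  rw [sum_comm]
  have e2 : ∀ S ∈ powersetCard m (univ : Finset (Fin r)),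
      (∑ f : Fin a → Fin r, if ∀ i, f i ∉ S then 1 else 0) = (r - m) ^ a := by
    intro S hS
    rw [← card_filter, tests_count, (mem_powersetCard.1 hS).2]
  rw [sum_congr rfl e2, sum_const, card_powersetCard, card_univ, Fintype.card_fin, smul_eq_mul]

theorem exists_tests {r m D a : ℕ} (hD : 1 ≤ D) (hm : m < r)
    (h : 4 * (r + 1) * (r - m) ^ a ≤ (r - m + D - 1) ^ a) :
    ∃ RR : Finset (Finset (Fin r)), (∀ R ∈ RR, R.card ≤ a) ∧
      (∀ β : Finset (Fin r), β.card + D ≤ m + 1 → ∃ R ∈ RR, Disjoint β R) ∧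
      4 * (univ.filter fun S : Finset (Fin r) => S.card = m ∧ ∃ R ∈ RR, Disjoint S R).card ≤
        r.choose m := by
  have hP : 0 < (r - m + D - 1) ^ a := pow_pos (by omega) _
  obtain ⟨W, hW1, hW2⟩ := cover (Ω := Fin a → Fin r)
    (univ.filter fun β : Finset (Fin r) => β.card + D ≤ m + 1) (fun β f => ∀ i, f i ∉ β)
    (fun f => (univ.filter fun S : Finset (Fin r) => S.card = m ∧ ∀ i, f i ∉ S).card)
    ((r - m + D - 1) ^ a) hP
    (fun β hβ => by
      rw [tests_count]
      have := (mem_filter.1 hβ).2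
      exact Nat.pow_le_pow_left (by omega) _)
    r (by
      refine (card_filter_le _ _).trans ?_
      rw [card_univ, Fintype.card_finset, Fintype.card_fin])
  rw [tests_sum] at hW2
  refine ⟨W.image fun f => univ.image f, ?_, ?_, ?_⟩
  · intro R hR
    obtain ⟨f, -, rfl⟩ := mem_image.1 hR
    refine card_image_le.trans ?_
    rw [card_univ, Fintype.card_fin]
  · intro β hβ
    obtain ⟨f, hf, hs⟩ := hW1 β (mem_filter.2 ⟨mem_univ _, hβ⟩)
    exact ⟨_, mem_image_of_mem _ hf, (tests_disj β f).2 hs⟩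
  · have s1 : ∀ T : Finset (Finset (Fin r)), (∀ S ∈ T, S.card = m ∧
          ∃ R ∈ W.image fun f : Fin a → Fin r => univ.image f, Disjoint S R) → T.card
        ≤ ∑ f ∈ W, (univ.filter fun S : Finset (Fin r) => S.card = m ∧ ∀ i, f i ∉ S).card := by
      intro T hT
      refine le_trans (card_le_card ?_) card_biUnion_le
      intro S hS
      obtain ⟨h1, R, hR, hd⟩ := hT S hS
      obtain ⟨f, hf, rfl⟩ := mem_image.1 hR
      exact mem_biUnion.2 ⟨f, hf, mem_filter.2 ⟨mem_univ _, h1, (tests_disj S f).1 hd⟩⟩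
    refine le_trans (Nat.mul_le_mul_left 4 (s1 _ fun S hS => ?_)) (Nat.le_of_mul_le_mul_left ?_ hP)
    · rw [mem_filter] at hS
      exact hS.2
    set P := (r - m + D - 1) ^ a
    set c := ∑ f ∈ W, (univ.filter fun S : Finset (Fin r) => S.card = m ∧ ∀ i, f i ∉ S).card
    calc P * (4 * c) = 4 * (P * c) := by ring
      _ ≤ 4 * ((r + 1) * (r.choose m * (r - m) ^ a)) := Nat.mul_le_mul_left 4 hW2
      _ = (4 * (r + 1) * (r - m) ^ a) * r.choose m := by ring
      _ ≤ P * r.choose m := Nat.mul_le_mul_right _ h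

end Pool.Agent.Work.MP_b5d674_co.L
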