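import Pool.Agent.Work.MP_b5d674_co.L.Count
import Pool.Agent.Work.MP_b5d674_co.L.Real
import Pool.Agent.Work.MP_b5d674_co.L.Tests
import Pool.Agent.Work.MP_b5d674_co.L.Dummy

/-! Many good pairs. -/

set_option autoImplicit false

namespace Pool.Agent.Work.MP_b5d674_co.L

open Finset
open scoped symmDiff

theorem many_pos {r m D : ℕ} (hm : m < r) : 0 < V r m D :=
  card_pos.2 ⟨univ, mem_filter.2 ⟨mem_univ _, by rw [card_univ, Fintype.card_fin]; omega⟩⟩

/-- The union bound. -/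
theorem many_union {r n m D θ : ℕ} (p : Fin n → Finset (Fin r)) (Q RR : Finset (Finset (Fin r))) :
    n * r.choose m ≤ (goods p Q RR m D θ).card +
      n * (univ.filter fun S : Finset (Fin r) => S.card = m ∧ ∃ R ∈ RR, Disjoint S R).card +
      (univ.filter fun z : Fin n × Finset (Fin r) =>
          z.2.card = m ∧ ∃ q ∈ Q, ¬ Marg D z.2 (p z.1 ∆ q)).card +
      ∑ k, ∑ k' ∈ univ.erase k, (univ.filter fun S : Finset (Fin r) =>
        S.card = m ∧ ¬ (Marg D S (p k ∆ p k') ∧ 2 * θ ≤ (p k ∆ p k').card)).card := by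
  classical
  have sub : (univ : Finset (Fin n)) ×ˢ powersetCard m (univ : Finset (Fin r)) ⊆
      goods p Q RR m D θ ∪ univ ×ˢ (univ.filter fun S : Finset (Fin r) =>
        S.card = m ∧ ∃ R ∈ RR, Disjoint S R) ∪
      (univ.filter fun z : Fin n × Finset (Fin r) =>
          z.2.card = m ∧ ∃ q ∈ Q, ¬ Marg D z.2 (p z.1 ∆ q)) ∪
      univ.biUnion fun k => (univ.erase k).biUnion fun k' => (univ.filter fun S : Finset (Fin r) =>
        S.card = m ∧ ¬ (Marg D S (p k ∆ p k') ∧ 2 * θ ≤ (p k ∆ p k').card)).image (Prod.mk k) := by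
    rintro ⟨k, S⟩ hz
    have hS : S.card = m := (mem_powersetCard.1 (mem_product.1 hz).2).2
    by_cases h1 : ∃ R ∈ RR, Disjoint S R
    · exact mem_union_left _ (mem_union_left _ (mem_union_right _
        (mem_product.2 ⟨mem_univ _, mem_filter.2 ⟨mem_univ _, hS, h1⟩⟩)))
    by_cases h2 : ∃ q ∈ Q, ¬ Marg D S (p k ∆ q)
    · exact mem_union_left _ (mem_union_right _ (mem_filter.2 ⟨mem_univ _, hS, h2⟩))
    by_cases h3 : ∃ k', k' ≠ k ∧ ¬ (Marg D S (p k ∆ p k') ∧ 2 * θ ≤ (p k ∆ p k').card)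
    · obtain ⟨k', a, b⟩ := h3
      exact mem_union_right _ (mem_biUnion.2 ⟨k, mem_univ _, mem_biUnion.2 ⟨k',
        mem_erase.2 ⟨a, mem_univ _⟩, mem_image.2 ⟨S, mem_filter.2 ⟨mem_univ _, hS, b⟩, rfl⟩⟩⟩)
    refine mem_union_left _ (mem_union_left _ (mem_union_left _ ?_))
    unfold goods
    exact mem_filter.2 ⟨mem_univ _, hS, fun R a b => h1 ⟨R, a, b⟩,
      fun q a => by_contra fun b => h2 ⟨q, a, b⟩, fun k' a => by_contra fun b => h3 ⟨k', a, b⟩⟩
  have c := card_le_card sub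
  rw [card_product, card_powersetCard, card_univ, card_univ, Fintype.card_fin,
    Fintype.card_fin] at c
  refine c.trans ((card_union_le _ _).trans (Nat.add_le_add ((card_union_le _ _).trans
    (Nat.add_le_add_right ((card_union_le _ _).trans (le_of_eq ?_)) _)) ?_))
  · rw [card_product, card_univ, Fintype.card_fin]
  · exact card_biUnion_le.trans (sum_le_sum fun k _ =>
      card_biUnion_le.trans (sum_le_sum fun k' _ => card_image_le))

/-- The arithmetic. -/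
theorem many_num {T v n C G A Y X u : ℕ} (hT : 0 < T) (a1 : 16 * v * n ≤ T) (a2 : T ≤ 32 * v * n)
    (a3 : 8 * u * v ≤ T) (b0 : n * C ≤ G + n * A + Y + X) (b1 : 4 * A ≤ C)
    (b2 : T * Y ≤ 2 * u * v * (n * C)) (b3 : T * X ≤ n ^ 2 * (2 * v * C)) :
    3 * (T * C) ≤ 256 * v * G := by
  have c1 : 4 * (n * A) ≤ n * C := by
    rw [mul_left_comm]
    exact Nat.mul_le_mul_left n b1
  have c2 : 4 * Y ≤ n * C := Nat.le_of_mul_le_mul_left (c := T) (calc
    T * (4 * Y) = 4 * (T * Y) := by ring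
    _ ≤ 4 * (2 * u * v * (n * C)) := Nat.mul_le_mul_left 4 b2
    _ = 8 * u * v * (n * C) := by ring
    _ ≤ T * (n * C) := Nat.mul_le_mul_right _ a3) hT
  have c3 : 8 * X ≤ n * C := Nat.le_of_mul_le_mul_left (c := T) (calc
    T * (8 * X) = 8 * (T * X) := by ring
    _ ≤ 8 * (n ^ 2 * (2 * v * C)) := Nat.mul_le_mul_left 8 b3
    _ = 16 * v * n * (n * C) := by ring
    _ ≤ T * (n * C) := Nat.mul_le_mul_right _ a1) hT
  calc 3 * (T * C) ≤ 3 * (32 * v * n * C) := Nat.mul_le_mul_left 3 (Nat.mul_le_mul_right C a2)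
    _ = 32 * v * (3 * (n * C)) := by ring
    _ ≤ 32 * v * (8 * G) := Nat.mul_le_mul_left _ (by omega)
    _ = 256 * v * G := by ring

/-- `n = 2^r / (16 V)`; union bound: `n C(r,m) ≤ #goods + n #tests-bad + dummies-bad + pairs-bad`,
so `3 n C(r,m) ≤ 8 #goods`, and `2^r ≤ 32 V n`. -/
theorem many {r m D a θ : ℕ} (hD : 1 ≤ D) (hm : m < r) (h1 : 2 * θ + m ≤ r)
    (h2 : 4 * (r + 1) * (r - m) ^ a ≤ (r - m + D - 1) ^ a)
    (h3 : 8 * (2 * r + 1) * V r m D ≤ 2 ^ r) :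
    ∃ (n : ℕ) (p : Fin n → Finset (Fin r)) (Q RR : Finset (Finset (Fin r))),
      (∀ R ∈ RR, R.card ≤ a) ∧
      (∀ β : Finset (Fin r), β.card + D ≤ m + 1 → ∃ R ∈ RR, Disjoint β R) ∧
      (∀ P M : Finset (Fin r), (∀ k, (blk P M (p k)).card + m ≤ r) →
        ∃ q ∈ Q, ∀ k, ¬ Marg D (blk P M (p k)) (p k ∆ q)) ∧
      3 * (2 ^ r * r.choose m) ≤ 256 * V r m D * (goods p Q RR m D θ).card := by
  have v0 : 0 < V r m D := many_pos hm
  obtain ⟨n, hn⟩ : ∃ n, n = 2 ^ r / (16 * V r m D) := ⟨_, rfl⟩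
  have a1 : 16 * V r m D * n ≤ 2 ^ r := hn ▸ Nat.mul_div_le _ _
  have n0 : 0 < n := hn ▸ Nat.div_pos
    ((Nat.mul_le_mul_right _ (by omega : 16 ≤ 8 * (2 * r + 1))).trans h3) (by omega)
  have a2 : 2 ^ r ≤ 32 * V r m D * n := by
    have c := Nat.lt_mul_div_succ (2 ^ r) (show 0 < 16 * V r m D by omega)
    rw [← hn] at c
    calc 2 ^ r ≤ 16 * V r m D * (n + 1) := c.le
      _ ≤ 16 * V r m D * (2 * n) := Nat.mul_le_mul_left _ (by omega)
      _ = 32 * V r m D * n := by ring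
  obtain ⟨p, hp⟩ := exists_real r n _ _ (cnt_w (D := D) h1)
  obtain ⟨RR, r1, r2, r3⟩ := exists_tests hD hm h2
  obtain ⟨Q, q1, q2⟩ := exists_dummy (m := m) hD p (by
    have c : 16 * V r m D * n = 8 * (2 * (n * V r m D)) := by ring
    omega)
  exact ⟨n, p, Q, RR, r1, r2, q1,
    many_num (Nat.two_pow_pos r) a1 a2 h3 (many_union p Q RR) r3 q2 hp⟩

end Pool.Agent.Work.MP_b5d674_co.L
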