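import Pool.Agent.Work.MP_b5d674_co.L.Bin

/-! Numerics for `m = r / 2 + r / 1000`, `D = 6`. -/

set_option autoImplicit false

namespace Pool.Agent.Work.MP_b5d674_co.L

open Finset

/-- The number of sets with at most `a` points, by weights `q ^ (r - |X|)`. -/
theorem numt_ball (r a q : ℕ) (hq : 1 ≤ q) :
    (univ.filter fun X : Finset (Fin r) => X.card ≤ a).card * q ^ r ≤ (q + 1) ^ r * q ^ a := by
  have h1 : (1 + q) ^ r = ∑ X : Finset (Fin r), q ^ (r - X.card) := by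
    have := Finset.sum_pow_mul_eq_add_pow (1 : ℕ) q (univ : Finset (Fin r))
    simpa using this.symm
  rw [add_comm q 1, h1, sum_mul, card_eq_sum_ones, sum_mul]
  refine le_trans (sum_le_sum fun X hX => ?_) (sum_le_sum_of_subset (filter_subset _ univ))
  rw [one_mul, ← pow_add]
  have := (mem_filter.1 hX).2
  exact Nat.pow_le_pow_right hq (by omega)

theorem numt_choose_le_V (r m : ℕ) : r.choose m ≤ V r m 6 := by
  have h : r.choose m = (powersetCard m (univ : Finset (Fin r))).card := by simp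
  rw [h]
  refine card_le_card fun X hX => ?_
  have := (mem_powersetCard.1 hX).2
  simp only [mem_filter, mem_univ, true_and]
  omega

theorem numt_V {r m : ℕ} (hr : 20000 ≤ r) (hm : m = r / 2 + r / 1000) :
    V r m 6 ≤ 64000 * r.choose m := by
  obtain ⟨m₀, h₀⟩ : ∃ m₀, m₀ + 5 = m := ⟨m - 5, by omega⟩
  have h1 := bin_tail (r := r) (m := m) (D := 6) (m₀ := m₀) (by omega)
  have h2 := bin_up r m₀ 5 (by omega)
  rw [h₀] at h2
  have h3 : m ^ 5 ≤ (2 * (r - m + 1)) ^ 5 := Nat.pow_le_pow_left (by omega) 5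
  have h4 : r.choose m₀ ≤ 32 * r.choose m := by
    refine Nat.le_of_mul_le_mul_right (c := (r - m + 1) ^ 5) (h2.trans ?_) (by positivity)
    calc m ^ 5 * r.choose m ≤ (2 * (r - m + 1)) ^ 5 * r.choose m := Nat.mul_le_mul_right _ h3
      _ = 32 * r.choose m * (r - m + 1) ^ 5 := by ring
  have h5 : m₀ ≤ 2000 * (2 * m₀ - r) := by omega
  have h6 : 0 < 2 * m₀ - r := by omega
  refine Nat.le_of_mul_le_mul_left (c := 2 * m₀ - r) (h1.trans ?_) h6
  calc m₀ * r.choose m₀ ≤ (2000 * (2 * m₀ - r)) * (32 * r.choose m) := Nat.mul_le_mul h5 h4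
    _ = (2 * m₀ - r) * (64000 * r.choose m) := by ring

theorem numt_C {r m : ℕ} (hr : 10 ^ 21 ≤ r) (hm : m = r / 2 + r / 1000) :
    8 * (2 * r + 1) * (64000 * r.choose m) ≤ 2 ^ r := by
  obtain ⟨h, hh⟩ : ∃ h, h = r / 4000 := ⟨_, rfl⟩
  obtain ⟨m₀, h₀⟩ : ∃ m₀, m₀ + 2 * h = m := ⟨m - 2 * h, by omega⟩
  have h1 := bin_down r m₀ (2 * h)
  rw [h₀] at h1
  have h2 : 1001 * (r - m₀) ≤ 1000 * (m₀ + 1) := by omega
  have h3 : 0 < r - m₀ := by omega
  have h4 : r.choose m * 1001 ^ (2 * h) ≤ 1000 ^ (2 * h) * 2 ^ r := by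
    refine Nat.le_of_mul_le_mul_right (c := (r - m₀) ^ (2 * h)) ?_ (by positivity)
    calc r.choose m * 1001 ^ (2 * h) * (r - m₀) ^ (2 * h)
        = r.choose m * (1001 * (r - m₀)) ^ (2 * h) := by rw [mul_pow]; ring
      _ ≤ r.choose m * (1000 * (m₀ + 1)) ^ (2 * h) :=
          Nat.mul_le_mul_left _ (Nat.pow_le_pow_left h2 _)
      _ = 1000 ^ (2 * h) * (r.choose m * (m₀ + 1) ^ (2 * h)) := by rw [mul_pow]; ring
      _ ≤ 1000 ^ (2 * h) * ((r - m₀) ^ (2 * h) * 2 ^ r) :=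
          Nat.mul_le_mul_left _ (h1.trans (Nat.mul_le_mul_left _ (Nat.choose_le_two_pow r m₀)))
      _ = 1000 ^ (2 * h) * 2 ^ r * (r - m₀) ^ (2 * h) := by ring
  have h5 : h * 1000 ^ h ≤ 1000 * 1001 ^ h := by
    have b := one_add_mul_le_pow (a := (1 / 1000 : ℝ)) (by norm_num) h
    have e : (1 + 1 / 1000 : ℝ) ^ h = 1001 ^ h / 1000 ^ h := by rw [← div_pow]; norm_num
    rw [e, le_div_iff₀ (by positivity)] at b
    have p : (0 : ℝ) < 1000 ^ h := by positivity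
    have : (h : ℝ) * 1000 ^ h ≤ 1000 * 1001 ^ h := by nlinarith
    exact_mod_cast this
  have h6 : 10 ^ 6 * (8 * (2 * r + 1) * 64000) ≤ h * h := by
    have a1 : 8 * (2 * r + 1) ≤ 10 ^ 5 * h := by omega
    have a2 : 10 ^ 17 ≤ h := by omega
    calc 10 ^ 6 * (8 * (2 * r + 1) * 64000) ≤ 10 ^ 6 * (10 ^ 5 * h * 64000) := by gcongr
      _ = h * (64 * 10 ^ 14) := by ring
      _ ≤ h * h := Nat.mul_le_mul_left _ (le_trans (by norm_num) a2)
  have h7 : 8 * (2 * r + 1) * 64000 * 1000 ^ (2 * h) ≤ 1001 ^ (2 * h) := by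
    refine Nat.le_of_mul_le_mul_left (c := 10 ^ 6) ?_ (by norm_num)
    calc 10 ^ 6 * (8 * (2 * r + 1) * 64000 * 1000 ^ (2 * h))
        = 10 ^ 6 * (8 * (2 * r + 1) * 64000) * 1000 ^ (2 * h) := by ring
      _ ≤ h * h * 1000 ^ (2 * h) := Nat.mul_le_mul_right _ h6
      _ = (h * 1000 ^ h) * (h * 1000 ^ h) := by rw [two_mul, pow_add]; ring
      _ ≤ (1000 * 1001 ^ h) * (1000 * 1001 ^ h) := Nat.mul_le_mul h5 h5
      _ = 10 ^ 6 * 1001 ^ (2 * h) := by rw [two_mul, pow_add]; ring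
  refine Nat.le_of_mul_le_mul_right (c := 1000 ^ (2 * h)) ?_ (by positivity)
  calc 8 * (2 * r + 1) * (64000 * r.choose m) * 1000 ^ (2 * h)
      = r.choose m * (8 * (2 * r + 1) * 64000 * 1000 ^ (2 * h)) := by ring
    _ ≤ r.choose m * 1001 ^ (2 * h) := Nat.mul_le_mul_left _ h7
    _ ≤ 1000 ^ (2 * h) * 2 ^ r := h4
    _ = 2 ^ r * 1000 ^ (2 * h) := by ring

theorem numt_mid (r : ℕ) : 2 ^ r ≤ (r + 1) * r.choose (r / 2) := by
  rw [← Nat.sum_range_choose r]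
  simpa using sum_le_card_nsmul (range (r + 1)) (fun i => r.choose i) (r.choose (r / 2))
    fun i _ => Nat.choose_le_middle i r

theorem numt_low {r m : ℕ} (hr : 20000 ≤ r) (hm : m = r / 2 + r / 1000) :
    2 ^ r ≤ (r + 1) * 2 ^ (r / 1000) * r.choose m := by
  have h2 := bin_up r (r / 2) (r / 1000) (by omega)
  rw [← hm] at h2
  have h3 : m ^ (r / 1000) ≤ (2 * (r - m + 1)) ^ (r / 1000) := Nat.pow_le_pow_left (by omega) _
  have h4 : r.choose (r / 2) ≤ 2 ^ (r / 1000) * r.choose m := by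
    refine Nat.le_of_mul_le_mul_right (c := (r - m + 1) ^ (r / 1000)) (h2.trans ?_)
      (by positivity)
    calc m ^ (r / 1000) * r.choose m ≤ (2 * (r - m + 1)) ^ (r / 1000) * r.choose m :=
          Nat.mul_le_mul_right _ h3
      _ = 2 ^ (r / 1000) * r.choose m * (r - m + 1) ^ (r / 1000) := by rw [mul_pow]; ring
  exact (numt_mid r).trans (by rw [mul_assoc]; exact Nat.mul_le_mul_left _ h4)

theorem numt_AU {r m a u : ℕ} (hr : 10 ^ 6 ≤ r) (hm : m = r / 2 + r / 1000)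
    (ha : 3 * a ≤ r + 12) (hu : u ≤ 2 * (r / 1000)) :
    (univ.filter fun X : Finset (Fin r) => X.card ≤ a).card *
      (univ.filter fun X : Finset (Fin r) => X.card ≤ u).card ≤ r.choose m := by
  have hA := numt_ball r a 2 (by norm_num)
  have hU := numt_ball r u 512 (by norm_num)
  have hL := numt_low (le_trans (by norm_num) hr) hm
  generalize (univ.filter fun X : Finset (Fin r) => X.card ≤ a).card = A at hA ⊢
  generalize (univ.filter fun X : Finset (Fin r) => X.card ≤ u).card = U at hU ⊢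
  generalize r.choose m = C at hL ⊢
  obtain ⟨μ, hμ⟩ : ∃ μ, μ = r / 1000 := ⟨_, rfl⟩
  rw [← hμ] at hL hu
  have rA : (A : ℝ) * 2 ^ r ≤ 3 ^ r * 2 ^ a := by exact_mod_cast hA
  have rU : (U : ℝ) * 512 ^ r ≤ 513 ^ r * 512 ^ u := by exact_mod_cast hU
  have rL : (2 : ℝ) ^ r ≤ (r + 1) * 2 ^ μ * C := by exact_mod_cast hL
  have e1 : (2 : ℝ) ^ a ≤ 16 * 1.26 ^ r := by
    refine le_of_pow_le_pow_left₀ (n := 3) (by norm_num) (by positivity) ?_
    calc ((2 : ℝ) ^ a) ^ 3 = 2 ^ (3 * a) := by rw [← pow_mul, mul_comm]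
      _ ≤ 2 ^ (r + 12) := pow_le_pow_right₀ (by norm_num) ha
      _ = 16 ^ 3 * 2 ^ r := by rw [pow_add]; norm_num [mul_comm]
      _ ≤ 16 ^ 3 * (1.26 ^ 3) ^ r := by gcongr; norm_num
      _ = (16 * 1.26 ^ r) ^ 3 := by rw [mul_pow, ← pow_mul, ← pow_mul, mul_comm 3 r]
  have e2 : (512 : ℝ) ^ u * 2 ^ μ ≤ 1.02 ^ r := by
    have b : (2 : ℝ) ≤ 1.02 ^ 50 := by
      have := one_add_mul_le_pow (a := (0.02 : ℝ)) (by norm_num) 50
      norm_num at this ⊢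
    calc (512 : ℝ) ^ u * 2 ^ μ = 2 ^ (9 * u + μ) := by rw [pow_add, pow_mul]; norm_num
      _ ≤ (1.02 ^ 50) ^ (9 * u + μ) := pow_le_pow_left₀ (by norm_num) b _
      _ = 1.02 ^ (50 * (9 * u + μ)) := by rw [← pow_mul]
      _ ≤ 1.02 ^ r := pow_le_pow_right₀ (by norm_num) (by omega)
  have e3 : 16 * ((r : ℝ) + 1) ≤ (1.017 ^ 2) ^ r := by
    have b := one_add_mul_le_pow (a := (0.017 : ℝ)) (by norm_num) r
    have c : (10 : ℝ) ^ 6 ≤ r := by exact_mod_cast hr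
    have d : (1 + (r : ℝ) * 0.017) ^ 2 ≤ ((1 + 0.017) ^ r) ^ 2 :=
      pow_le_pow_left₀ (by positivity) b 2
    rw [← pow_mul, mul_comm 2 r, pow_mul]
    have e : (1 + 0.017 : ℝ) = 1.017 := by norm_num
    rw [e] at d
    nlinarith
  have e4 : (1.017 ^ 2 : ℝ) ^ r * (3 ^ r * 513 ^ r * 1.26 ^ r * 1.02 ^ r) ≤
      2 ^ r * (2 ^ r * 512 ^ r) := by
    simp only [← mul_pow]
    exact pow_le_pow_left₀ (by norm_num) (by norm_num) r
  have key : ((A : ℝ) * U) * (((r + 1) * 2 ^ μ) * (2 ^ r * 512 ^ r)) ≤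
      C * (((r + 1) * 2 ^ μ) * (2 ^ r * 512 ^ r)) := by
    calc ((A : ℝ) * U) * (((r + 1) * 2 ^ μ) * (2 ^ r * 512 ^ r))
        = (A * 2 ^ r) * (U * 512 ^ r) * ((r + 1) * 2 ^ μ) := by ring
      _ ≤ (3 ^ r * 2 ^ a) * (513 ^ r * 512 ^ u) * ((r + 1) * 2 ^ μ) := by gcongr
      _ = (r + 1) * (3 ^ r * 513 ^ r) * 2 ^ a * (512 ^ u * 2 ^ μ) := by ring
      _ ≤ (r + 1) * (3 ^ r * 513 ^ r) * (16 * 1.26 ^ r) * 1.02 ^ r := by gcongr
      _ = (16 * (r + 1)) * (3 ^ r * 513 ^ r * 1.26 ^ r * 1.02 ^ r) := by ring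
      _ ≤ (1.017 ^ 2) ^ r * (3 ^ r * 513 ^ r * 1.26 ^ r * 1.02 ^ r) := by gcongr
      _ ≤ 2 ^ r * (2 ^ r * 512 ^ r) := e4
      _ ≤ ((r + 1) * 2 ^ μ * C) * (2 ^ r * 512 ^ r) := by gcongr
      _ = _ := by ring
  exact_mod_cast le_of_mul_le_mul_right key (by positivity)

/-- All numerical conditions at `m = r / 2 + r / 1000`, `D = 6`, `t = r - m + 3`,
`a = 2 (t + 2) / 3`, `u = 2 m - r`. -/
theorem numT {r m : ℕ} (hr : 10 ^ 21 ≤ r) (hm : m = r / 2 + r / 1000) :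
    V r m 6 ≤ 64000 * r.choose m ∧ 8 * (2 * r + 1) * V r m 6 ≤ 2 ^ r ∧
      (univ.filter fun X : Finset (Fin r) => X.card ≤ 2 * (r - m + 3 + 2) / 3).card *
        (univ.filter fun X : Finset (Fin r) => X.card ≤ 2 * m - r).card ≤ V r m 6 := by
  have h1 := numt_V (le_trans (by norm_num) hr) hm
  exact ⟨h1, (Nat.mul_le_mul_left _ h1).trans (numt_C hr hm),
    (numt_AU (le_trans (by norm_num) hr) hm (by omega) (by omega)).trans (numt_choose_le_V r m)⟩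

end Pool.Agent.Work.MP_b5d674_co.L
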