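import Pool.Agent.Work.MP_b5d674_co.L.K0

/-! The known upper bound `2 ^ r` (a spanning subfamily of the tensors of the edges) and the
passage from a construction to `k₀`. -/

set_option autoImplicit false

namespace Pool.Agent.Work.MP_b5d674_co.L

open Finset

/-- If every `2 ^ r` edges have a transversal cover, then all edges have one. -/
theorem up_cover {r : ℕ} {V : Fin r → Type} (hV : ∀ i, Finite (V i)) (H : Set (∀ i, V i))
    (h : Helly (2 ^ r) H) : ∃ t : ∀ i, V i, ∀ e ∈ H, ∃ i, e i = t i := by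
  classical
  choose φ hφ using fun i => exists_injective_nat (V i)
  set w : (∀ i, V i) → Finset (Fin r) → ℚ := fun e I => ∏ i ∈ I, (φ i (e i) : ℚ) with hw
  obtain ⟨b, b1, b2, b3⟩ := exists_linearIndependent ℚ (w '' H)
  have hb : b.Finite := ((Set.toFinite H).image w).subset b1
  lift b to Finset (Finset (Fin r) → ℚ) using hb
  obtain ⟨F, F1, F2, F3⟩ := Finset.exists_subset_injOn_image_eq_of_surjOn (f := w) H b b1
  have hc : b.card ≤ 2 ^ r := by
    have := b3.fintype_card_le_finrank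
    simpa using this
  obtain ⟨t, ht⟩ := h F F1 (by
    rw [Set.encard_coe_eq_coe_finsetCard, ← card_image_of_injOn F2, F3]
    exact_mod_cast hc)
  set L : (Finset (Fin r) → ℚ) →ₗ[ℚ] ℚ :=
    ∑ I : Finset (Fin r), (∏ i ∈ univ \ I, -(φ i (t i) : ℚ)) • LinearMap.proj I with hL
  have key : ∀ e, L (w e) = 0 ↔ ∃ i, e i = t i := fun e => by
    have : L (w e) = ∏ i, ((φ i (e i) : ℚ) + -(φ i (t i) : ℚ)) := by
      rw [prod_add, powerset_univ, hL, LinearMap.sum_apply]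
      exact sum_congr rfl fun I _ => by simp [hw, mul_comm]
    rw [this, prod_eq_zero_iff]
    simp [add_neg_eq_zero, (hφ _).eq_iff]
  refine ⟨t, fun e he => (key e).1 ?_⟩
  have h1 : w e ∈ Submodule.span ℚ (b : Set _) := b2 ▸ Submodule.subset_span ⟨e, he, rfl⟩
  refine (Submodule.span_le.2 fun x hx => ?_ : _ ≤ LinearMap.ker L) h1
  rw [← F3] at hx
  obtain ⟨e', h2, rfl⟩ := mem_image.1 (mem_coe.1 hx)
  exact (key e').2 (ht e' h2)

theorem up_hp (r : ℕ) : hp r (2 ^ r) = r := by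
  refine le_antisymm (iSup₂_le fun V hV => iSup₂_le fun H h => ?_) ?_
  · obtain ⟨t, ht⟩ := up_cover hV H h
    refine (iInf₂_le (Set.range fun i => Sigma.mk i (t i)) fun e he => ?_).trans ?_
    · obtain ⟨i, hi⟩ := ht e he
      exact ⟨i, i, by rw [hi]⟩
    · rw [← Set.image_univ]
      exact (Set.encard_image_le _ _).trans (by simp)
  · refine le_iSup₂_of_le (fun _ => Fin r) (fun _ => inferInstance) (le_iSup₂_of_le
      (Set.range fun j _ => j) (fun F hF _ => ⟨fun i => i, fun e he => ?_⟩)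
      (le_iInf₂ fun C hC => ?_))
    · obtain ⟨j, rfl⟩ := hF he
      exact ⟨j, rfl⟩
    · have h1 : (Set.univ : Set (Fin r)) ⊆ (fun x : Σ _ : Fin r, Fin r => x.2) '' C := fun j _ => by
        obtain ⟨i, hi⟩ := hC _ ⟨j, rfl⟩
        exact ⟨_, hi, rfl⟩
      simpa using (Set.encard_le_encard h1).trans (Set.encard_image_le _ _)

theorem up_k0 (r : ℕ) : k0 r ≤ 2 ^ r := Nat.sInf_le ⟨Nat.one_le_two_pow, up_hp r⟩

/-- A construction gives a lower bound for `k₀`. -/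
theorem up_low {r : ℕ} {x : ℝ} (H : Finset (Fin r → Fin (r + 1)))
    (h1 : ∀ F ⊆ H, (F.card : ℝ) ≤ x → ∃ t : Fin r → Fin (r + 1), ∀ e ∈ F, ∃ i, e i = t i)
    (h2 : ∀ C : Finset (Fin r × Fin (r + 1)), (∀ e ∈ H, ∃ i, (i, e i) ∈ C) → r < C.card) :
    x < k0 r := by
  classical
  by_contra hc
  have h3 : hp r (k0 r) = r :=
    (Nat.sInf_mem (s := {k | 1 ≤ k ∧ hp r k = r}) ⟨_, Nat.one_le_two_pow, up_hp r⟩).2
  have h4 : ((r + 1 : ℕ) : ℕ∞) ≤ hp r (k0 r) := by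
    refine le_iSup₂_of_le (fun _ => Fin (r + 1)) (fun _ => inferInstance) (le_iSup₂_of_le
      (H : Set (Fin r → Fin (r + 1))) (fun F hF hk => ?_) (le_iInf₂ fun C hC => ?_))
    · lift F to Finset (Fin r → Fin (r + 1)) using Set.toFinite F
      rw [Set.encard_coe_eq_coe_finsetCard] at hk
      have h5 : F.card ≤ k0 r := by exact_mod_cast hk
      exact h1 F (by exact_mod_cast hF) ((Nat.cast_le.2 h5).trans (not_lt.1 hc))
    · lift C to Finset (Σ _ : Fin r, Fin (r + 1)) using Set.toFinite C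
      rw [Set.encard_coe_eq_coe_finsetCard, Nat.cast_le]
      refine (h2 (C.image fun x => (x.1, x.2)) fun e he => ?_).trans_le card_image_le
      obtain ⟨i, hi⟩ := hC e he
      exact ⟨i, mem_image.2 ⟨_, hi, rfl⟩⟩
  rw [h3, Nat.cast_le] at h4
  omega

/-- The two-sided form of the theorem. -/
theorem up_order (h : ∃ c : ℝ, 0 < c ∧ ∃ r₀ : ℕ, ∀ r ≥ r₀, ∃ H : Finset (Fin r → Fin (r + 1)),
      (∀ F ⊆ H, (F.card : ℝ) ≤ c * 2 ^ r →
        ∃ t : Fin r → Fin (r + 1), ∀ e ∈ F, ∃ i, e i = t i) ∧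
      ∀ C : Finset (Fin r × Fin (r + 1)), (∀ e ∈ H, ∃ i, (i, e i) ∈ C) → r < C.card) :
    ∃ c : ℝ, 0 < c ∧ ∃ r₀ : ℕ, ∀ r ≥ r₀, c * 2 ^ r < k0 r ∧ k0 r ≤ 2 ^ r := by
  obtain ⟨c, hc, r₀, h⟩ := h
  refine ⟨c, hc, r₀, fun r hr => ?_⟩
  obtain ⟨H, h1, h2⟩ := h r hr
  exact ⟨up_low H h1 h2, up_k0 r⟩

/-- The same as an order of magnitude. -/
theorem up_theta (h : ∃ c : ℝ, 0 < c ∧ ∃ r₀ : ℕ, ∀ r ≥ r₀, c * 2 ^ r < k0 r ∧ k0 r ≤ 2 ^ r) :
    (fun r : ℕ => (k0 r : ℝ)) =Θ[Filter.atTop] fun r : ℕ => (2 : ℝ) ^ r := by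
  obtain ⟨c, hc, r₀, h⟩ := h
  refine ⟨Asymptotics.IsBigO.of_bound 1 (Filter.eventually_atTop.2 ⟨r₀, fun r hr => ?_⟩),
    Asymptotics.IsBigO.of_bound c⁻¹ (Filter.eventually_atTop.2 ⟨r₀, fun r hr => ?_⟩)⟩
  · rw [Real.norm_of_nonneg (by positivity), Real.norm_of_nonneg (by positivity), one_mul]
    exact_mod_cast (h r hr).2
  · rw [Real.norm_of_nonneg (by positivity), Real.norm_of_nonneg (by positivity),
      le_inv_mul_iff₀ hc]
    exact (h r hr).1.le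

end Pool.Agent.Work.MP_b5d674_co.L
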