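import Pool.Agent.Work.MP_b5d674_co.L.Key
import Pool.Agent.Work.MP_b5d674_co.L.Many
import Pool.Agent.Work.MP_b5d674_co.L.NumT
import Pool.Agent.Work.MP_b5d674_co.L.Code
import Pool.Agent.Work.MP_b5d674_co.L.Up

/-! The bound `k₀(r) ≥ c 2^r` from a family of test sets. -/

set_option autoImplicit false

namespace Pool.Agent.Work.MP_b5d674_co.L

open Finset
open scoped symmDiff

/-- The pair condition: margin, and many points in every `R ∆ N`. -/
def PairT {r : ℕ} (RR : Finset (Finset (Fin r))) (D u : ℕ) (S N : Finset (Fin r)) : Prop :=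
  Marg D S N ∧ ∀ R ∈ RR, u ≤ (S ∩ (R ∆ N)).card

instance {r : ℕ} (RR : Finset (Finset (Fin r))) (D u : ℕ) (S N : Finset (Fin r)) :
    Decidable (PairT RR D u S N) := by unfold PairT; infer_instance

/-- `S` is a good support for the family `k`. -/
def GoodT {r n : ℕ} (p : Fin n → Finset (Fin r)) (Q RR : Finset (Finset (Fin r))) (m D u : ℕ)
    (k : Fin n) (S : Finset (Fin r)) : Prop :=
  S.card = m ∧ (∀ R ∈ RR, ¬ Disjoint S R) ∧ (∀ q ∈ Q, Marg D S (p k ∆ q)) ∧
    ∀ k', k' ≠ k → PairT RR D u S (p k ∆ p k')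

open Classical in
/-- The good pairs. -/
noncomputable def goodsT {r n : ℕ} (p : Fin n → Finset (Fin r))
    (Q RR : Finset (Finset (Fin r))) (m D u : ℕ) : Finset (Fin n × Finset (Fin r)) :=
  univ.filter fun z => GoodT p Q RR m D u z.1 z.2

theorem th_key {r n m D u : ℕ} (hr : 2 ≤ r) (p : Fin n → Finset (Fin r))
    (Q RR : Finset (Finset (Fin r))) (hu : 2 * m ≤ u + r)
    (H1 : ∀ β : Finset (Fin r), β.card + D ≤ m + 1 → ∃ R ∈ RR, Disjoint β R)
    (H2 : ∀ P M : Finset (Fin r), (∀ k, (blk P M (p k)).card + m ≤ r) →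
      ∃ q ∈ Q, ∀ k, ¬ Marg D (blk P M (p k)) (p k ∆ q)) :
    ∃ H : Finset (Fin r → Fin (r + 1)),
      (∀ F ⊆ H, F.card < (goodsT p Q RR m D u).card →
        ∃ t : Fin r → Fin (r + 1), ∀ e ∈ F, ∃ i, e i = t i) ∧
      ∀ C : Finset (Fin r × Fin (r + 1)), (∀ e ∈ H, ∃ i, (i, e i) ∈ C) → r < C.card := by
  classical
  have hG : ∀ z ∈ goodsT p Q RR m D u, GoodT p Q RR m D u z.1 z.2 := fun z hz =>
    (mem_filter.1 hz).2
  have := key_scheme (ι := Fin r) (α := Fin (r + 1)) (by simp) (by simp; omega) (m := m)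
    (fun k => sgn (p k)) (goodsT p Q RR m D u) (fun z hz => (hG z hz).1) ?_
  · simpa using this
  intro B hb
  by_cases hd : (B true ∩ B false).card + 2 ≤ D
  · refine key_small (fun k => sgn (p k)) _ (fun z hz => (hG z hz).1) (fun z hz k' hk' => ?_) B hb hd
    rw [key_dif]
    exact ((hG z hz).2.2.2 k' hk').1
  suffices h : ∃ g : Finset (Fin r), ∀ z ∈ goodsT p Q RR m D u,
      ¬ key_Miss B (sgn g) (sgn (p z.1)) z.2 by
    obtain ⟨g, hg⟩ := h
    exact ⟨sgn g, fun z hz _ _ h _ => (hg z hz h).elim⟩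
  by_cases hA : ∀ k, (blk (B true) (B false) (p k)).card + m ≤ r
  · obtain ⟨q, hq, hq'⟩ := H2 _ _ hA
    refine ⟨qᶜ, fun z hz hmiss => hq' z.1 ?_⟩
    have h1 := (hG z hz).2.2.1 q hq
    have h2 : z.2 ∩ (p z.1 ∆ q) ⊆ blk (B true) (B false) (p z.1) ∩ (p z.1 ∆ q) := by
      intro i hi
      obtain ⟨hi1, hi2⟩ := mem_inter.1 hi
      refine mem_inter.2 ⟨key_F2 hmiss hi1 ?_, hi2⟩
      rw [mem_symmDiff] at hi2
      rw [mem_compl]
      tauto
    have h3 := card_le_card h2
    unfold Marg at h1 ⊢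
    omega
  · push Not at hA
    obtain ⟨k0, hk0⟩ := hA
    have hU := card_union_add_card_inter (B true) (B false)
    have hβ : (blk (B true) (B false) (p k0)).card ≤ (B true ∪ B false).card :=
      card_le_card (union_subset_union inter_subset_left sdiff_subset)
    obtain ⟨R, hR, hR'⟩ := H1 (blk (B true) (B false) (p k0)) (by omega)
    refine ⟨(p k0 ∩ R) ∪ ((p k0)ᶜ \ R), fun z hz hmiss => ?_⟩
    by_cases hk : z.1 = k0
    · obtain ⟨i, hi1, hi2⟩ := not_disjoint_iff.1 ((hG z hz).2.1 R hR)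
      refine disjoint_left.1 hR' (hk ▸ key_F2 hmiss hi1 ?_) hi2
      rw [hk]
      simp [hi2]
    · have h1 := ((hG z hz).2.2.2 k0 (Ne.symm hk)).2 R hR
      have h3 : z.2 ∩ (R ∆ (p z.1 ∆ p k0)) ⊆
          blk (B true) (B false) (p z.1) ∩ (p z.1 ∆ p k0) := by
        intro i hi
        obtain ⟨hi1, hi2⟩ := mem_inter.1 hi
        have h4 : i ∈ blk (B true) (B false) (p z.1) := by
          refine key_F2 hmiss hi1 ?_
          simp only [mem_symmDiff] at hi2
          simp only [mem_union, mem_inter, mem_sdiff, mem_compl]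
          tauto
        refine mem_inter.2 ⟨h4, by_contra fun h5 => ?_⟩
        have h6 : i ∈ R := by
          rw [mem_symmDiff] at hi2
          tauto
        refine disjoint_left.1 hR' ?_ h6
        simp only [mem_symmDiff] at h5
        simp only [blk, mem_union, mem_inter, mem_sdiff] at h4 ⊢
        tauto
      have h4 := card_le_card h3
      have h5 := key_two (B true) (B false) (p z.1) (p k0)
      omega

theorem th_cnt {r m u : ℕ} (S R : Finset (Fin r)) (hS : S.card = m) :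
    (univ.filter fun N : Finset (Fin r) => (S ∩ (R ∆ N)).card < u).card ≤
      2 ^ (r - m) * (univ.filter fun X : Finset (Fin r) => X.card ≤ u).card := by
  have h1 : (powerset Sᶜ).card = 2 ^ (r - m) := by
    rw [card_powerset, card_compl, Fintype.card_fin, hS]
  rw [← h1, ← card_product]
  refine card_le_card_of_injOn (fun N => ((R ∆ N) \ S, S ∩ (R ∆ N))) (fun N hN => ?_)
    fun N _ N' _ e => ?_
  · have := (mem_filter.1 (mem_coe.1 hN)).2
    refine mem_coe.2 (mem_product.2 ⟨mem_powerset.2 fun i hi => ?_,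
      mem_filter.2 ⟨mem_univ _, this.le⟩⟩)
    exact mem_compl.2 (mem_sdiff.1 hi).2
  · obtain ⟨e1, e2⟩ := Prod.ext_iff.1 e
    refine symmDiff_right_injective R ?_
    show R ∆ N = R ∆ N'
    rw [← sdiff_union_inter (R ∆ N) S, ← sdiff_union_inter (R ∆ N') S, inter_comm _ S,
      inter_comm _ S]
    exact congrArg₂ _ e1 e2

theorem th_w {r m D u : ℕ} (RR : Finset (Finset (Fin r)))
    (h : RR.card * (2 ^ (r - m) * (univ.filter fun X : Finset (Fin r) => X.card ≤ u).card) ≤
      V r m D) :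
    ∑ N : Finset (Fin r), (univ.filter fun S : Finset (Fin r) =>
      S.card = m ∧ ¬ PairT RR D u S N).card ≤ 2 * V r m D * r.choose m := by
  simp only [card_filter]
  rw [sum_comm]
  calc _ ≤ ∑ S : Finset (Fin r), if S.card = m then 2 * V r m D else 0 := by
        refine sum_le_sum fun S _ => ?_
        split_ifs with hS
        · have h1 := cnt_a (D := D) S ∅ hS
          have h2 : (RR.biUnion fun R => univ.filter fun N : Finset (Fin r) =>
              (S ∩ (R ∆ N)).card < u).card ≤ V r m D :=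
            (card_biUnion_le.trans (sum_le_card_nsmul _ _ _ fun R _ => th_cnt S R hS)).trans h
          simp only [← bot_eq_empty, bot_symmDiff] at h1
          rw [← card_filter]
          refine le_trans (card_le_card fun N hN => ?_) ((card_union_le _ _).trans
            ((add_le_add h1 h2).trans_eq (two_mul _).symm))
          have h3 := (mem_filter.1 hN).2.2
          simp only [mem_union, mem_biUnion, mem_filter, mem_univ, true_and]
          by_contra h4
          rw [not_or, not_not] at h4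
          exact h3 ⟨h4.1, fun R hR => not_lt.1 fun h5 => h4.2 ⟨R, hR, h5⟩⟩
        · simp [hS]
    _ = _ := by
        rw [← sum_filter, sum_const, smul_eq_mul, mul_comm]
        congr 1
        have := card_powersetCard m (univ : Finset (Fin r))
        rw [powersetCard_eq_filter, powerset_univ, card_univ, Fintype.card_fin] at this
        exact this

theorem th_union {r n m D u : ℕ} (p : Fin n → Finset (Fin r)) (Q RR : Finset (Finset (Fin r))) :
    n * r.choose m ≤ (goodsT p Q RR m D u).card +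
      n * (univ.filter fun S : Finset (Fin r) => S.card = m ∧ ∃ R ∈ RR, Disjoint S R).card +
      (univ.filter fun z : Fin n × Finset (Fin r) =>
          z.2.card = m ∧ ∃ q ∈ Q, ¬ Marg D z.2 (p z.1 ∆ q)).card +
      ∑ k, ∑ k' ∈ univ.erase k, (univ.filter fun S : Finset (Fin r) =>
        S.card = m ∧ ¬ PairT RR D u S (p k ∆ p k')).card := by
  classical
  have sub : (univ : Finset (Fin n)) ×ˢ powersetCard m (univ : Finset (Fin r)) ⊆
      goodsT p Q RR m D u ∪ univ ×ˢ (univ.filter fun S : Finset (Fin r) =>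
        S.card = m ∧ ∃ R ∈ RR, Disjoint S R) ∪
      (univ.filter fun z : Fin n × Finset (Fin r) =>
          z.2.card = m ∧ ∃ q ∈ Q, ¬ Marg D z.2 (p z.1 ∆ q)) ∪
      univ.biUnion fun k => (univ.erase k).biUnion fun k' => (univ.filter fun S : Finset (Fin r) =>
        S.card = m ∧ ¬ PairT RR D u S (p k ∆ p k')).image (Prod.mk k) := by
    rintro ⟨k, S⟩ hz
    have hS : S.card = m := (mem_powersetCard.1 (mem_product.1 hz).2).2
    by_cases h1 : ∃ R ∈ RR, Disjoint S R
    · exact mem_union_left _ (mem_union_left _ (mem_union_right _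
        (mem_product.2 ⟨mem_univ _, mem_filter.2 ⟨mem_univ _, hS, h1⟩⟩)))
    by_cases h2 : ∃ q ∈ Q, ¬ Marg D S (p k ∆ q)
    · exact mem_union_left _ (mem_union_right _ (mem_filter.2 ⟨mem_univ _, hS, h2⟩))
    by_cases h3 : ∃ k', k' ≠ k ∧ ¬ PairT RR D u S (p k ∆ p k')
    · obtain ⟨k', a, b⟩ := h3
      exact mem_union_right _ (mem_biUnion.2 ⟨k, mem_univ _, mem_biUnion.2 ⟨k',
        mem_erase.2 ⟨a, mem_univ _⟩, mem_image.2 ⟨S, mem_filter.2 ⟨mem_univ _, hS, b⟩, rfl⟩⟩⟩)
    refine mem_union_left _ (mem_union_left _ (mem_union_left _ ?_))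
    unfold goodsT
    exact mem_filter.2 ⟨mem_univ _, hS, fun R a b => h1 ⟨R, a, b⟩,
      fun q a => by_contra fun b => h2 ⟨q, a, b⟩, fun k' a => by_contra fun b => h3 ⟨k', a, b⟩⟩
  have c := card_le_card sub
  rw [card_product, card_powersetCard, card_univ, card_univ, Fintype.card_fin,
    Fintype.card_fin] at c
  refine c.trans ((card_union_le _ _).trans (Nat.add_le_add ((card_union_le _ _).trans
    (Nat.add_le_add_right ((card_union_le _ _).trans (le_of_eq ?_)) _)) ?_))
  · rw [card_product, card_univ, Fintype.card_fin]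
  · exact card_biUnion_le.trans (sum_le_sum fun k _ =>
      card_biUnion_le.trans (sum_le_sum fun k' _ => card_image_le))

theorem th_many {r m D u : ℕ} (hD : 1 ≤ D) (hm : m < r) (RR : Finset (Finset (Fin r)))
    (r3 : 4 * (univ.filter fun S : Finset (Fin r) => S.card = m ∧ ∃ R ∈ RR, Disjoint S R).card ≤
      r.choose m)
    (h1 : RR.card * (2 ^ (r - m) * (univ.filter fun X : Finset (Fin r) => X.card ≤ u).card) ≤
      V r m D)
    (h3 : 8 * (2 * r + 1) * V r m D ≤ 2 ^ r) :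
    ∃ (n : ℕ) (p : Fin n → Finset (Fin r)) (Q : Finset (Finset (Fin r))),
      (∀ P M : Finset (Fin r), (∀ k, (blk P M (p k)).card + m ≤ r) →
        ∃ q ∈ Q, ∀ k, ¬ Marg D (blk P M (p k)) (p k ∆ q)) ∧
      3 * (2 ^ r * r.choose m) ≤ 256 * V r m D * (goodsT p Q RR m D u).card := by
  have v0 : 0 < V r m D := many_pos hm
  obtain ⟨n, hn⟩ : ∃ n, n = 2 ^ r / (16 * V r m D) := ⟨_, rfl⟩
  have a1 : 16 * V r m D * n ≤ 2 ^ r := hn ▸ Nat.mul_div_le _ _
  have n0 : 0 < n := hn ▸ Nat.div_pos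
    ((Nat.mul_le_mul_right _ (by omega : 16 ≤ 8 * (2 * r + 1))).trans h3) (by omega)
  have a2 : 2 ^ r ≤ 32 * V r m D * n := by
    have c := Nat.lt_mul_div_succ (2 ^ r) (show 0 < 16 * V r m D by omega)
    rw [← hn] at c
    calc 2 ^ r ≤ 16 * V r m D * (n + 1) := c.le
      _ ≤ 16 * V r m D * (2 * n) := Nat.mul_le_mul_left _ (by omega)
      _ = 32 * V r m D * n := by ring
  obtain ⟨p, hp⟩ := exists_real r n _ _ (th_w RR h1)
  obtain ⟨Q, q1, q2⟩ := exists_dummy (m := m) hD p (by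
    have c : 16 * V r m D * n = 8 * (2 * (n * V r m D)) := by ring
    omega)
  exact ⟨n, p, Q, q1, many_num (Nat.two_pow_pos r) a1 a2 h3 (th_union p Q RR) r3 q2 hp⟩

/-- The lower bound from the test family. -/
theorem th_main (code : ∀ r m : ℕ, m ≤ r → ∃ RR : Finset (Finset (Fin r)),
      (∀ β : Finset (Fin r), β.card + 6 ≤ m + 1 → ∃ R ∈ RR, Disjoint β R) ∧
      4 * (univ.filter fun S : Finset (Fin r) => S.card = m ∧ ∃ R ∈ RR, Disjoint S R).card ≤
        r.choose m ∧
      RR.card * 2 ^ (r - m) ≤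
        (univ.filter fun X : Finset (Fin r) => X.card ≤ 2 * (r - m + 3 + 2) / 3).card) :
    ∃ c : ℝ, 0 < c ∧ ∃ r₀ : ℕ, ∀ r ≥ r₀, ∃ H : Finset (Fin r → Fin (r + 1)),
      (∀ F ⊆ H, (F.card : ℝ) ≤ c * 2 ^ r →
        ∃ t : Fin r → Fin (r + 1), ∀ e ∈ F, ∃ i, e i = t i) ∧
      ∀ C : Finset (Fin r × Fin (r + 1)), (∀ e ∈ H, ∃ i, (i, e i) ∈ C) → r < C.card := by
  refine ⟨1 / 10 ^ 7, by norm_num, 10 ^ 21, fun r hr => ?_⟩
  obtain ⟨m, hm⟩ : ∃ m, m = r / 2 + r / 1000 := ⟨_, rfl⟩
  obtain ⟨n1, n2, n3⟩ := numT hr hm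
  have hr' : 1000 ≤ r := le_trans (by norm_num) hr
  obtain ⟨RR, c1, c2, c3⟩ := code r m (by omega)
  obtain ⟨n, p, Q, q1, q2⟩ := th_many (D := 6) (u := 2 * m - r) (by norm_num) (by omega) RR c2
    (by rw [← mul_assoc]; exact (Nat.mul_le_mul_right _ c3).trans n3) n2
  obtain ⟨H, k1, k2⟩ := th_key (u := 2 * m - r) (by omega) p Q RR (by omega) c1 q1
  refine ⟨H, fun F hF hc => k1 F hF ?_, k2⟩
  generalize (goodsT p Q RR m 6 (2 * m - r)).card = G at q2 ⊢
  have C0 : 0 < r.choose m := Nat.choose_pos (by omega)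
  have a : 3 * 2 ^ r ≤ 256 * 64000 * G := by
    refine Nat.le_of_mul_le_mul_right (c := r.choose m) ?_ C0
    calc 3 * 2 ^ r * r.choose m = 3 * (2 ^ r * r.choose m) := by ring
      _ ≤ 256 * V r m 6 * G := q2
      _ ≤ 256 * (64000 * r.choose m) * G := by gcongr
      _ = 256 * 64000 * G * r.choose m := by ring
  have b : (3 : ℝ) * 2 ^ r ≤ 256 * 64000 * G := by exact_mod_cast a
  have p0 : (0 : ℝ) < 2 ^ r := by positivity
  have : (F.card : ℝ) < G := by linarith
  exact_mod_cast this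

/-- The order of `k₀(r)`. -/
theorem th_order : ∃ c : ℝ, 0 < c ∧ ∃ r₀ : ℕ, ∀ r ≥ r₀, c * 2 ^ r < k0 r ∧ k0 r ≤ 2 ^ r :=
  up_order (th_main fun r m hm => by
    obtain ⟨RR, c1, c2, c3⟩ := exists_code (r := r) (m := m) (a := 2 * (r - m + 3 + 2) / 3) hm
      (by omega)
    exact ⟨RR, c1, c2, le_trans (by omega) c3⟩)

end Pool.Agent.Work.MP_b5d674_co.L
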